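import Pool.Agent.Helper61.Zono.NormDiff

/-! Lower bound for the number of segments. -/

open MeasureTheory ProbabilityTheory Real Filter Topology
open scoped NNReal RealInnerProductSpace

namespace Pool.Agent.Helper61.Zono

variable {n N : ℕ}

lemma card_ge {ε : ℝ} (hε : ε < 1) (x : Fin N → En n)
    (hx : ∀ v : En n, (1 - ε) * ‖v‖ ≤ ∑ j, |⟪v, x j⟫|) : n ≤ N := by
  let f : En n →ₗ[ℝ] (Fin N → ℝ) :=
    { toFun := fun v j => ⟪v, x j⟫
      map_add' := fun u v => by ext j; simp [inner_add_left]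
      map_smul' := fun c v => by ext j; simp [inner_smul_left] }
  have hf : Function.Injective f := by
    rw [← LinearMap.ker_eq_bot, LinearMap.ker_eq_bot']
    intro v hv
    have h0 : ∀ j, ⟪v, x j⟫ = 0 := fun j => congrFun hv j
    have h := hx v
    simp only [h0, abs_zero, Finset.sum_const_zero] at h
    have h1 : ‖v‖ ≤ 0 := by
      by_contra hcon
      have hcon' : 0 < ‖v‖ := not_le.1 hcon
      nlinarith
    exact norm_le_zero_iff.1 h1
  have := LinearMap.finrank_le_finrank_of_injective hf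
  simpa using this

lemma sum_abs_le (y : En n) : ∑ i, |y i| ≤ √n * ‖y‖ := by
  have h := sq_sum_le_card_mul_sum_sq (s := Finset.univ) (f := fun i => |y i|)
  simp only [sq_abs, Finset.card_univ, Fintype.card_fin] at h
  rw [← EuclideanSpace.real_norm_sq_eq] at h
  have h2 : 0 ≤ ∑ i, |y i| := Finset.sum_nonneg fun i _ => abs_nonneg _
  apply le_of_sq_le_sq _ (by positivity)
  rw [mul_pow, Real.sq_sqrt (by positivity)]
  exact h

lemma total_ge {ε : ℝ} (hn : 0 < n) (x : Fin N → En n)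
    (hx : ∀ v : En n, (1 - ε) * ‖v‖ ≤ ∑ j, |⟪v, x j⟫|) : (1 - ε) * √n ≤ ∑ j, ‖x j‖ := by
  have h1 : ∀ i : Fin n, (1 - ε) ≤ ∑ j, |x j i| := by
    intro i
    have := hx (bv i)
    simp only [inner_bv] at this
    simpa [bv] using this
  have h2 : (n : ℝ) * (1 - ε) ≤ ∑ i : Fin n, ∑ j, |x j i| := by
    have := Finset.sum_le_sum (s := Finset.univ) (fun i _ => h1 i)
    rw [Finset.sum_const, Finset.card_univ, Fintype.card_fin, nsmul_eq_mul] at this
    exact this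
  rw [Finset.sum_comm] at h2
  have h3 : ∑ j, ∑ i : Fin n, |x j i| ≤ ∑ j, √n * ‖x j‖ :=
    Finset.sum_le_sum fun j _ => sum_abs_le (x j)
  rw [← Finset.mul_sum] at h3
  have hs : (0 : ℝ) < √n := Real.sqrt_pos.2 (by exact_mod_cast hn)
  have hss : √(n : ℝ) * √n = n := Real.mul_self_sqrt (by positivity)
  have h4 : √n * ((1 - ε) * √n) ≤ √n * ∑ j, ‖x j‖ := by
    calc √n * ((1 - ε) * √n) = (√n * √n) * (1 - ε) := by ring
      _ = n * (1 - ε) := by rw [hss]
      _ ≤ _ := h2.trans h3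
  exact le_of_mul_le_mul_left h4 hs

lemma sum_Ev_le (L : Submodule ℝ (Vn n)) (σ : ℝ) {ε : ℝ} (x : Fin N → En n)
    (hx : ∀ v : En n, ∑ j, |⟪v, x j⟫| ≤ (1 + ε) * ‖v‖) :
    ∑ j, Ev L σ (x j) ≤ (1 + ε) * Nv L σ := by
  unfold Ev Nv
  rw [← integral_finsetSum _ (fun j _ => inner_Xv_integrable L σ (x j)), ← integral_const_mul]
  apply integral_mono (integrable_finsetSum _ (fun j _ => inner_Xv_integrable L σ (x j)))
    ((norm_Xv_integrable L σ).const_mul _)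
  intro y
  exact hx _

lemma le_sum_Ev (L : Submodule ℝ (Vn n)) (σ : ℝ) {ε : ℝ} (x : Fin N → En n)
    (hx : ∀ v : En n, (1 - ε) * ‖v‖ ≤ ∑ j, |⟪v, x j⟫|) :
    (1 - ε) * Nv L σ ≤ ∑ j, Ev L σ (x j) := by
  unfold Ev Nv
  rw [← integral_finsetSum _ (fun j _ => inner_Xv_integrable L σ (x j)), ← integral_const_mul]
  apply integral_mono ((norm_Xv_integrable L σ).const_mul _)
    (integrable_finsetSum _ (fun j _ => inner_Xv_integrable L σ (x j)))
  intro y
  exact hx _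

/-- the basic inequality -/
lemma basic_ineq {ε : ℝ} (hn : 0 < n) (hε0 : 0 ≤ ε) (hε : ε ≤ 1) (x : Fin N → En n)
    (hlo : ∀ v : En n, (1 - ε) * ‖v‖ ≤ ∑ j, |⟪v, x j⟫|)
    (hup : ∀ v : En n, ∑ j, |⟪v, x j⟫| ≤ (1 + ε) * ‖v‖) {τ : ℝ} (hτ : 0 ≤ τ) :
    (∑ j, ‖x j‖) * (3 * τ * c1 - 8 * τ ^ 2) - 64 / c1 * τ ^ 2 * √N ≤
      8 * τ * (√2 / √n * √(2 * N + n) + 3) + 2 * ε * (4 * √n + τ * √N) := by
  set L : Submodule ℝ (Vn n) := Submodule.span ℝ (Set.range fun j => tens (x j) (x j)) with hL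
  have hmem : ∀ j, tens (x j) (x j) ∈ L := fun j => Submodule.subset_span ⟨j, rfl⟩
  have hr : (Module.finrank ℝ L : ℝ) ≤ N := by
    have := finrank_range_le_card (R := ℝ) (fun j : Fin N => tens (x j) (x j))
    rw [Fintype.card_fin] at this
    exact_mod_cast this
  have hc := c1_pos
  have hK : 0 < 4 / c1 := by positivity
  have hsig : ∀ j, ‖x j‖ * (4 * τ * c1 - 4 * τ / (4 / c1) - 8 * τ ^ 2) -
      4 * (4 / c1) * τ ^ 2 * Rv L (x j) ≤ Ev L (-τ) (x j) - Ev L τ (x j) := fun j =>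
    signal_vec (hmem j) hτ hK
  have hsum := Finset.sum_le_sum (s := Finset.univ) (fun j _ => hsig j)
  rw [Finset.sum_sub_distrib, Finset.sum_sub_distrib, ← Finset.sum_mul, ← Finset.mul_sum] at hsum
  have e1 : 4 * τ * c1 - 4 * τ / (4 / c1) - 8 * τ ^ 2 = 3 * τ * c1 - 8 * τ ^ 2 := by
    field_simp
    ring
  rw [e1] at hsum
  have hR := sum_Rv_le L x hε hup
  have h1 := sum_Ev_le L (-τ) x hup
  have h2 := le_sum_Ev L τ x hlo
  have h3 := Nv_diff L hn hτ
  have h4 := Nv_le L (-τ)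
  have h5 := Nv_le L τ
  rw [abs_neg] at h4
  rw [abs_of_nonneg hτ] at h4 h5
  have hsr : √(Module.finrank ℝ L : ℝ) ≤ √N := Real.sqrt_le_sqrt hr
  have hkap := half_le_kap
  set A := √2 / √n * √(2 * Module.finrank ℝ L + n) + 3 with hA
  have hA0 : 0 ≤ A := by positivity
  have hAB : A ≤ √2 / √n * √(2 * N + n) + 3 := by
    rw [hA]
    gcongr
  have h6 : Nv L (-τ) - Nv L τ ≤ 8 * τ * A := by
    rcases le_total (Nv L (-τ) - Nv L τ) 0 with h | h
    · exact h.trans (by positivity)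
    · nlinarith
  have h7 : 8 * τ * A ≤ 8 * τ * (√2 / √n * √(2 * N + n) + 3) :=
    mul_le_mul_of_nonneg_left hAB (by positivity)
  have h8 : ε * (Nv L (-τ) + Nv L τ) ≤ ε * (2 * (4 * √n + τ * √N)) := by
    apply mul_le_mul_of_nonneg_left _ hε0
    have : τ * √(Module.finrank ℝ L : ℝ) ≤ τ * √N := mul_le_mul_of_nonneg_left hsr hτ
    linarith
  have h9 : 4 * (4 / c1) * τ ^ 2 * ∑ j, Rv L (x j) ≤ 64 / c1 * τ ^ 2 * √N := by
    calc 4 * (4 / c1) * τ ^ 2 * ∑ j, Rv L (x j)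
        ≤ 4 * (4 / c1) * τ ^ 2 * (4 * √N) := by
          apply mul_le_mul_of_nonneg_left _ (by positivity)
          exact hR.trans (by linarith)
      _ = _ := by ring
  have h10 : (1 + ε) * Nv L (-τ) - (1 - ε) * Nv L τ =
      (Nv L (-τ) - Nv L τ) + ε * (Nv L (-τ) + Nv L τ) := by ring
  have h11 : (∑ j, ‖x j‖) * (3 * τ * c1 - 8 * τ ^ 2) =
      (∑ j, ‖x j‖) * (3 * τ * c1 - 8 * τ ^ 2) := rfl
  set M0 := (∑ j, ‖x j‖) * (3 * τ * c1 - 8 * τ ^ 2) with hM0
  set B0 := 64 / c1 * τ ^ 2 * √(N : ℝ) with hB0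
  set D0 := 8 * τ * (√2 / √n * √(2 * N + n) + 3) with hD0
  have h12 : ε * (2 * (4 * √n + τ * √N)) = 2 * ε * (4 * √n + τ * √N) := by ring
  linarith

theorem main : ∃ c : ℝ, 0 < c ∧ ∀ (n N : ℕ) (ε : ℝ) (x : Fin N → En n), 0 < ε → ε < 1 →
    (∀ v : En n, (1 - ε) * ‖v‖ ≤ ∑ j, |⟪v, x j⟫| ∧ ∑ j, |⟪v, x j⟫| ≤ (1 + ε) * ‖v‖) →
    c * min ((n : ℝ) ^ 2) (n / ε ^ 2) ≤ N := by
  have hc := c1_pos
  have hc1 := c1_le_one
  set c := c1 with hcdef
  set δ := c ^ 2 / 128 with hδ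
  have hδ0 : 0 < δ := by positivity
  refine ⟨min (min (1 / 4) (c ^ 2 / 24576)) (min (c ^ 2 / 36864) (δ ^ 2 * c ^ 2 / 1600)),
    by positivity, ?_⟩
  intro n N ε x hε0 hε1 hx
  set C := min (min (1 / 4) (c ^ 2 / 24576)) (min (c ^ 2 / 36864) (δ ^ 2 * c ^ 2 / 1600)) with hC
  have hC0 : 0 < C := by positivity
  have hCa : C ≤ 1 / 4 := (min_le_left _ _).trans (min_le_left _ _)
  have hCb : C ≤ c ^ 2 / 24576 := (min_le_left _ _).trans (min_le_right _ _)
  have hCc : C ≤ c ^ 2 / 36864 := (min_le_right _ _).trans (min_le_left _ _)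
  have hCd : C ≤ δ ^ 2 * c ^ 2 / 1600 := (min_le_right _ _).trans (min_le_right _ _)
  have hnN : n ≤ N := card_ge hε1 x (fun v => (hx v).1)
  have hnN' : (n : ℝ) ≤ N := by exact_mod_cast hnN
  rcases Nat.eq_zero_or_pos n with hn | hn
  · subst hn
    simp
  have hn' : (0 : ℝ) < n := by exact_mod_cast hn
  have hN' : (0 : ℝ) < N := lt_of_lt_of_le hn' hnN'
  have hm0 : 0 ≤ min ((n : ℝ) ^ 2) (n / ε ^ 2) := by positivity
  -- large ε
  rcases lt_or_ge (1 / 2) ε with hbig | hsmall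
  · have h1 : (n : ℝ) / ε ^ 2 ≤ 4 * n := by
      rw [div_le_iff₀ (by positivity)]
      have he : 1 ≤ 4 * ε ^ 2 := by nlinarith
      nlinarith
    calc C * min ((n : ℝ) ^ 2) (n / ε ^ 2) ≤ 1 / 4 * (n / ε ^ 2) :=
          mul_le_mul hCa (min_le_right _ _) hm0 (by norm_num)
      _ ≤ n := by linarith
      _ ≤ N := hnN'
  -- many segments
  rcases lt_or_ge (c ^ 2 / 24576 * (n : ℝ) ^ 2) (N : ℝ) with hmany | hfew
  · calc C * min ((n : ℝ) ^ 2) (n / ε ^ 2) ≤ c ^ 2 / 24576 * (n : ℝ) ^ 2 :=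
          mul_le_mul hCb (min_le_left _ _) hm0 (by positivity)
      _ ≤ N := hmany.le
  -- small dimension
  rcases lt_or_ge ((n : ℝ)) (36864 / c ^ 2) with hdim | hdim
  · calc C * min ((n : ℝ) ^ 2) (n / ε ^ 2) ≤ c ^ 2 / 36864 * (n : ℝ) ^ 2 :=
          mul_le_mul hCc (min_le_left _ _) hm0 (by positivity)
      _ = (c ^ 2 / 36864 * n) * n := by ring
      _ ≤ 1 * n := by
          apply mul_le_mul_of_nonneg_right _ hn'.le
          rw [lt_div_iff₀ (by positivity)] at hdim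
          rw [div_mul_eq_mul_div, div_le_one (by norm_num)]
          linarith
      _ ≤ N := by linarith
  -- main case
  set s := √(n : ℝ) with hs
  set t := √(N : ℝ) with ht
  have hs0 : 0 < s := Real.sqrt_pos.2 hn'
  have ht0 : 0 < t := Real.sqrt_pos.2 hN'
  have hss : s ^ 2 = n := Real.sq_sqrt hn'.le
  have htt : t ^ 2 = N := Real.sq_sqrt hN'.le
  have hst : s ≤ t := Real.sqrt_le_sqrt hnN'
  set τ := δ * s / t with hτ
  have hτ0 : 0 < τ := by positivity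
  have hτδ : τ ≤ δ := by
    rw [hτ, div_le_iff₀ ht0]
    exact mul_le_mul_of_nonneg_left hst hδ0.le
  have hτt : τ * t = δ * s := by rw [hτ]; field_simp
  have hδ1 : δ ≤ 1 := by rw [hδ]; nlinarith
  have hM := total_ge hn x (fun v => (hx v).1)
  have hM2 : s / 2 ≤ ∑ j, ‖x j‖ := by
    refine le_trans ?_ hM
    nlinarith
  have hb := basic_ineq hn hε0.le hε1.le x (fun v => (hx v).1) (fun v => (hx v).2) hτ0.le
  rw [← hcdef] at hb
  have h8 : 8 * δ ≤ c := by rw [hδ]; nlinarith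
  have hlow : τ * s * (c / 2) ≤ (∑ j, ‖x j‖) * (3 * τ * c - 8 * τ ^ 2) -
      64 / c * τ ^ 2 * t := by
    have a1 : 2 * c * τ ≤ 3 * τ * c - 8 * τ ^ 2 := by nlinarith
    have a2 : s / 2 * (2 * c * τ) ≤ (∑ j, ‖x j‖) * (3 * τ * c - 8 * τ ^ 2) :=
      mul_le_mul hM2 a1 (by positivity) (le_trans (by positivity) hM2)
    have a3 : 64 / c * τ ^ 2 * t = τ * s * (c / 2) := by
      calc 64 / c * τ ^ 2 * t = 64 / c * τ * (τ * t) := by ring
        _ = 64 / c * τ * (δ * s) := by rw [hτt]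
        _ = τ * s * (c / 2) := by rw [hδ]; field_simp; ring
    rw [a3]
    linarith
  have hup1 : √2 / s * √(2 * N + n) + 3 ≤ c / 32 * s := by
    have b1 : √2 / s * √(2 * N + n) ≤ c / 64 * s := by
      have b2 : √2 * √(2 * N + n) ≤ c / 64 * n := by
        rw [← Real.sqrt_mul (by norm_num)]
        rw [Real.sqrt_le_left (by positivity)]
        calc 2 * (2 * (N : ℝ) + n) ≤ 6 * N := by linarith
          _ ≤ 6 * (c ^ 2 / 24576 * (n : ℝ) ^ 2) := by linarith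
          _ = (c / 64 * n) ^ 2 := by ring
      calc √2 / s * √(2 * N + n) = (√2 * √(2 * N + n)) / s := by ring
        _ ≤ (c / 64 * n) / s := by gcongr
        _ = c / 64 * s := by rw [← hss]; field_simp
    have b3 : 3 ≤ c / 64 * s := by
      have b4 : 192 / c ≤ s := by
        apply Real.le_sqrt_of_sq_le
        have b5 : (192 / c) ^ 2 = 36864 / c ^ 2 := by rw [div_pow]; norm_num
        rw [b5]; exact hdim
      rw [div_le_iff₀ hc] at b4
      linarith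
    linarith
  have hfin : τ * s * (c / 2) ≤ 8 * τ * (c / 32 * s) + 2 * ε * (4 * s + δ * s) := by
    rw [hτt] at hb
    have : 8 * τ * (√2 / s * √(2 * N + n) + 3) ≤ 8 * τ * (c / 32 * s) :=
      mul_le_mul_of_nonneg_left hup1 (by positivity)
    linarith
  have hτε : τ * c ≤ 40 * ε := by
    have d1 : τ * s * (c / 4) ≤ 10 * ε * s := by
      have : 2 * ε * (4 * s + δ * s) ≤ 10 * ε * s := by
        have : ε * s * δ ≤ ε * s * 1 := mul_le_mul_of_nonneg_left hδ1 (by positivity)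
        nlinarith
      linarith
    have d2 : (τ * c) * s ≤ (40 * ε) * s := by linarith
    exact le_of_mul_le_mul_right d2 hs0
  have hsq : (τ * c) ^ 2 ≤ (40 * ε) ^ 2 := pow_le_pow_left₀ (by positivity) hτε 2
  have hfinal : δ ^ 2 * c ^ 2 / 1600 * (n / ε ^ 2) ≤ N := by
    have f1 : (τ * c) ^ 2 = δ ^ 2 * c ^ 2 * n / N := by
      rw [hτ, ← hss, ← htt]; field_simp
    rw [f1, div_le_iff₀ hN'] at hsq
    have f2 : δ ^ 2 * c ^ 2 / 1600 * (n / ε ^ 2) = (δ ^ 2 * c ^ 2 * n) / (1600 * ε ^ 2) := by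
      field_simp
    rw [f2, div_le_iff₀ (by positivity)]
    nlinarith
  calc C * min ((n : ℝ) ^ 2) (n / ε ^ 2) ≤ δ ^ 2 * c ^ 2 / 1600 * (n / ε ^ 2) :=
        mul_le_mul hCd (min_le_right _ _) hm0 (by positivity)
    _ ≤ N := hfinal

end Pool.Agent.Helper61.Zono
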