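import Pool.Agent.Helper61.Zono.Theta

/-! Marginals and moments of the standard Gaussian measure. -/

open MeasureTheory ProbabilityTheory Real Filter Topology
open scoped NNReal RealInnerProductSpace

namespace Pool.Agent.Helper61.Zono

lemma pow_ph_integrable (k : ℕ) : Integrable (fun x => x ^ k * ph x) := by
  have h : MemLp id (k : ℕ) (gaussianReal 0 1) := by
    have := memLp_id_gaussianReal (μ := 0) (v := 1) (k : ℝ≥0)
    simpa using this
  have h2 : Integrable (fun x : ℝ => ‖x‖ ^ k) (gaussianReal 0 1) := by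
    simpa using h.integrable_norm_pow'
  have h3 : Integrable (fun x : ℝ => x ^ k) (gaussianReal 0 1) := by
    refine h2.mono' (by fun_prop) (Eventually.of_forall fun x => ?_)
    simp
  rw [gaussianReal_of_var_ne_zero 0 one_ne_zero] at h3
  have h4 := (integrable_withDensity_iff_integrable_smul₀'
    (f := gaussianPDF 0 1) (g := fun x : ℝ => x ^ k) (measurable_gaussianPDF 0 1).aemeasurable
    (Eventually.of_forall fun x => gaussianPDF_lt_top)).1 h3
  refine h4.congr (Eventually.of_forall fun x => ?_)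
  simp only [smul_eq_mul, toReal_gaussianPDF, pdf_eq_ph]
  ring

lemma moment_rec (k : ℕ) :
    ∫ x, x ^ (k + 2) ∂(gaussianReal 0 1) = (k + 1) * ∫ x, x ^ k ∂(gaussianReal 0 1) := by
  rw [integral_g1, integral_g1]
  have h := integral_mul_deriv_eq_deriv_mul_of_integrable (u := fun x : ℝ => x ^ (k + 1))
    (v := fun x => -ph x) (u' := fun x : ℝ => ((k + 1 : ℕ) : ℝ) * x ^ k) (v' := fun x => x * ph x)
    (fun x _ => by simpa using hasDerivAt_pow (k + 1) x)
    (fun x _ => ((ph_hasDerivAt x).neg).congr_deriv (by ring))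
    (by
      refine (pow_ph_integrable (k + 2)).congr (Eventually.of_forall fun x => ?_)
      simp only [Pi.mul_apply]; ring)
    (by
      refine ((pow_ph_integrable k).const_mul (-((k + 1 : ℕ) : ℝ))).congr
        (Eventually.of_forall fun x => ?_)
      simp only [Pi.mul_apply]; ring)
    (by
      refine ((pow_ph_integrable (k + 1)).neg).congr (Eventually.of_forall fun x => ?_)
      simp only [Pi.mul_apply, Pi.neg_apply]; ring)
  rw [← integral_const_mul]
  calc ∫ x, x ^ (k + 2) * ph x = ∫ x, x ^ (k + 1) * (x * ph x) := by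
        congr 1; ext x; ring
    _ = - ∫ x, ((k + 1 : ℕ) : ℝ) * x ^ k * -ph x := h
    _ = ∫ x, (↑k + 1) * (x ^ k * ph x) := by
        rw [← integral_neg]; congr 1; ext x; push_cast; ring

lemma moment_two : ∫ x, x ^ 2 ∂(gaussianReal 0 1) = 1 := by
  have h := moment_rec 0
  simpa using h

lemma moment_four : ∫ x, x ^ 4 ∂(gaussianReal 0 1) = 3 := by
  have h := moment_rec 2
  rw [moment_two] at h
  norm_num at h
  exact h

section general

variable {E : Type*} [NormedAddCommGroup E] [InnerProductSpace ℝ E] [FiniteDimensional ℝ E]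
  [MeasurableSpace E] [BorelSpace E]

lemma map_inner (v : E) : (stdGaussian E).map (fun z => ⟪v, z⟫) =
    (gaussianReal 0 1).map (fun x => ‖v‖ * x) := by
  have h := IsGaussian.map_eq_gaussianReal (μ := stdGaussian E) (innerSL ℝ v)
  rw [variance_dual_stdGaussian, integral_strongDual_stdGaussian] at h
  have e : ⇑(innerSL ℝ v) = fun z => ⟪v, z⟫ := by ext z; simp
  rw [e] at h
  rw [h, gaussianReal_map_const_mul]
  simp only [mul_zero, mul_one, innerSL_apply_norm]
  congr 1
  ext
  simp [Real.toNNReal]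

lemma integral_inner (v : E) (f : ℝ → ℝ) (hf : Measurable f) :
    ∫ z, f ⟪v, z⟫ ∂(stdGaussian E) = ∫ x, f (‖v‖ * x) ∂(gaussianReal 0 1) := by
  have h1 : ∫ z, f ⟪v, z⟫ ∂(stdGaussian E) =
      ∫ x, f x ∂((stdGaussian E).map (fun z => ⟪v, z⟫)) := by
    rw [integral_map (by fun_prop) hf.aestronglyMeasurable]
  have h2 : ∫ x, f (‖v‖ * x) ∂(gaussianReal 0 1) =
      ∫ x, f x ∂((gaussianReal 0 1).map (fun x => ‖v‖ * x)) := by
    rw [integral_map (by fun_prop) hf.aestronglyMeasurable]
  rw [h1, h2, map_inner]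

lemma gauss_map_mul (c : ℝ) : (gaussianReal 0 1).map (fun x => c * x) =
    gaussianReal 0 (c ^ 2).toNNReal := by
  rw [gaussianReal_map_const_mul]
  simp only [mul_zero, mul_one]
  congr 1
  ext
  simp [sq_nonneg]

lemma integral_two (m : ℝ) (c v : E) :
    ∫ p : E × E, |m + ⟪c, p.1⟫ + ⟪v, p.2⟫| ∂((stdGaussian E).prod (stdGaussian E)) =
      Th m (‖c‖ ^ 2 + ‖v‖ ^ 2) := by
  have h1 : ((stdGaussian E).prod (stdGaussian E)).map (fun p : E × E => ⟪c, p.1⟫ + ⟪v, p.2⟫) =
      gaussianReal 0 (‖c‖ ^ 2 + ‖v‖ ^ 2).toNNReal := by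
    have e : (fun p : E × E => ⟪c, p.1⟫ + ⟪v, p.2⟫) =
        (fun q : ℝ × ℝ => q.1 + q.2) ∘ (Prod.map (fun z => ⟪c, z⟫) (fun z => ⟪v, z⟫)) := by
      ext p; simp
    rw [e, ← Measure.map_map (by fun_prop) (by fun_prop),
      ← Measure.map_prod_map _ _ (by fun_prop) (by fun_prop), map_inner, map_inner,
      gauss_map_mul, gauss_map_mul]
    have h := gaussianReal_conv_gaussianReal (m₁ := 0) (m₂ := 0) (v₁ := (‖c‖ ^ 2).toNNReal)
      (v₂ := (‖v‖ ^ 2).toNNReal)
    unfold Measure.conv at h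
    rw [h, Real.toNNReal_add (by positivity) (by positivity)]
    simp
  have h2 : ∫ p : E × E, |m + ⟪c, p.1⟫ + ⟪v, p.2⟫| ∂((stdGaussian E).prod (stdGaussian E)) =
      ∫ x, |m + x| ∂(gaussianReal 0 (‖c‖ ^ 2 + ‖v‖ ^ 2).toNNReal) := by
    rw [← h1, integral_map (by fun_prop) (by fun_prop)]
    simp only [add_assoc]
  have h3 : gaussianReal 0 (‖c‖ ^ 2 + ‖v‖ ^ 2).toNNReal =
      (gaussianReal 0 1).map (fun x => √(‖c‖ ^ 2 + ‖v‖ ^ 2) * x) := by
    rw [gauss_map_mul, Real.sq_sqrt (by positivity)]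
  rw [h2, h3, integral_map (by fun_prop) (by fun_prop)]
  rfl

lemma integral_inner_sq (v : E) : ∫ z, ⟪v, z⟫ ^ 2 ∂(stdGaussian E) = ‖v‖ ^ 2 := by
  rw [integral_inner v (fun x => x ^ 2) (by fun_prop)]
  simp only [mul_pow]
  rw [integral_const_mul, moment_two, mul_one]

lemma integral_inner_four (v : E) : ∫ z, ⟪v, z⟫ ^ 4 ∂(stdGaussian E) = 3 * ‖v‖ ^ 4 := by
  rw [integral_inner v (fun x => x ^ 4) (by fun_prop)]
  simp only [mul_pow]
  rw [integral_const_mul, moment_four]; ring

lemma norm_pow_integrable (k : ℕ) : Integrable (fun z : E => ‖z‖ ^ k) (stdGaussian E) := by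
  have h := IsGaussian.memLp_id (stdGaussian E) (k : ℕ) (by simp)
  simpa using h.integrable_norm_pow'

lemma integral_inner_abs (v : E) : ∫ z, |⟪v, z⟫| ∂(stdGaussian E) =
    ‖v‖ * ∫ x, |x| ∂(gaussianReal 0 1) := by
  rw [integral_inner v (fun x => |x|) (by fun_prop)]
  simp only [abs_mul, abs_norm]
  rw [integral_const_mul]

end general

/-- `E|g|`, the first absolute moment of the standard normal law -/
noncomputable def kap : ℝ := ∫ x, |x| ∂(gaussianReal 0 1)

lemma kap_eq : kap = 2 * ph 0 := by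
  have h := integral_abs_sub 0
  simp only [sub_zero] at h
  unfold kap
  rw [h]; unfold Jf; ring

lemma kap_pos : 0 < kap := by rw [kap_eq]; have := ph_pos 0; positivity

lemma kap_le_one : kap ≤ 1 := by
  rw [kap_eq]; unfold ph; simp only [ne_eq, OfNat.ofNat_ne_zero, not_false_eq_true, zero_pow,
    neg_zero, zero_div, exp_zero, mul_one]
  rw [← div_eq_mul_inv, div_le_one (by positivity)]
  apply Real.le_sqrt_of_sq_le
  nlinarith [Real.pi_gt_three]

lemma half_le_kap : 1 / 2 ≤ kap := by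
  rw [kap_eq]; unfold ph; simp only [ne_eq, OfNat.ofNat_ne_zero, not_false_eq_true, zero_pow,
    neg_zero, zero_div, exp_zero, mul_one]
  rw [← div_eq_mul_inv, le_div_iff₀ (by positivity)]
  have : √(2 * π) ≤ 4 := by
    rw [Real.sqrt_le_left (by norm_num)]
    nlinarith [Real.pi_lt_four]
  linarith

end Pool.Agent.Helper61.Zono
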