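import Pool.Agent.Helper61.Zono.Signal

/-! The Euclidean norm of the test vectors. -/

open MeasureTheory ProbabilityTheory Real Filter Topology
open scoped NNReal RealInnerProductSpace

namespace Pool.Agent.Helper61.Zono

variable {n : ℕ}

lemma tens_inner_sq_integrable (B : Vn n) :
    Integrable (fun p : En n × En n => ⟪B, tens p.1 p.2⟫ ^ 2) (gm2 n) := by
  refine ((wt_integrable (n := n) 2).const_mul (‖B‖ ^ 2)).mono' ?_
    (Eventually.of_forall fun p => ?_)
  · exact ((continuous_const.inner tens_continuous).pow 2).aestronglyMeasurable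
  · rw [Real.norm_eq_abs, abs_of_nonneg (sq_nonneg _), ← sq_abs]
    have h := abs_real_inner_le_norm B (tens p.1 p.2)
    rw [norm_tens] at h
    have h2 : ‖p.1‖ * ‖p.2‖ ≤ wt 1 p := by
      unfold wt
      nlinarith [norm_nonneg p.1, norm_nonneg p.2]
    calc |⟪B, tens p.1 p.2⟫| ^ 2 ≤ (‖B‖ * wt 1 p) ^ 2 := by
          apply pow_le_pow_left₀ (abs_nonneg _)
          exact h.trans (by gcongr)
      _ = ‖B‖ ^ 2 * wt 2 p := by unfold wt; ring

lemma integral_tens_sq (B : Vn n) :
    ∫ p : En n × En n, ⟪B, tens p.1 p.2⟫ ^ 2 ∂(gm2 n) = ‖B‖ ^ 2 := by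
  rw [← integral_inner_tens_sq]
  exact integral_prod_symm _ (tens_inner_sq_integrable B)

lemma integral_Hm_sq (L : Submodule ℝ (Vn n)) :
    ∫ p, ‖Hm L p‖ ^ 2 ∂(gm2 n) = Module.finrank ℝ L := by
  unfold Hm
  simp only [norm_pr_sq]
  rw [integral_finsetSum _ (fun k _ => tens_inner_sq_integrable _)]
  simp only [integral_tens_sq]
  have h1 : ∀ k, ‖((stdOrthonormalBasis ℝ L k : L) : Vn n)‖ = 1 := fun k =>
    (stdOrthonormalBasis ℝ L).orthonormal.1 k
  simp only [h1]
  simp

lemma Hm_sq_integrable (L : Submodule ℝ (Vn n)) :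
    Integrable (fun p => ‖Hm L p‖ ^ 2) (gm2 n) := by
  unfold Hm
  simp only [norm_pr_sq]
  exact integrable_finsetSum _ (fun k _ => tens_inner_sq_integrable _)

lemma Hm_integrable (L : Submodule ℝ (Vn n)) :
    Integrable (fun p => ‖Hm L p‖) (gm2 n) := by
  refine (wt_integrable (n := n) 1).mono' (Hm_continuous L).norm.aestronglyMeasurable
    (Eventually.of_forall fun p => ?_)
  rw [norm_norm]
  exact norm_Hm_le_wt L p

lemma integral_Hm_le (L : Submodule ℝ (Vn n)) :
    ∫ p, ‖Hm L p‖ ∂(gm2 n) ≤ √(Module.finrank ℝ L) :=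
  integral_le_sqrt _ (Hm_integrable L) (Hm_sq_integrable L) (integral_Hm_sq L).le

lemma norm_integrable (k : ℕ) : Integrable (fun z : En n => ‖z‖ ^ k) (gm n) :=
  norm_pow_integrable k

lemma act_sq_integrable (B : Vn n) : Integrable (fun z : En n => ‖act B z‖ ^ 2) (gm n) := by
  simp only [norm_act_sq]
  exact integrable_finsetSum _ (fun i _ => inner_pow_integrable _ 2)

lemma act_integrable (B : Vn n) : Integrable (fun z : En n => ‖act B z‖) (gm n) := by
  have h1 := (norm_pow_integrable (E := En n) 1).const_mul ‖B‖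
  refine h1.mono' ?_ (Eventually.of_forall fun z => ?_)
  · exact (act_continuous.comp (continuous_const.prodMk continuous_id)).norm.aestronglyMeasurable
  · rw [norm_norm, pow_one]; exact norm_act_le B z

lemma integral_act_le (B : Vn n) : ∫ z, ‖act B z‖ ∂(gm n) ≤ ‖B‖ := by
  have h := integral_le_sqrt (gm n) (act_integrable B) (act_sq_integrable B)
    (integral_norm_act_sq B).le
  rwa [Real.sqrt_sq (norm_nonneg _)] at h

/-- positivity control: the hypothesis bounds the total size of the random matrix at the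
given vectors -/
lemma sum_Rv_le (L : Submodule ℝ (Vn n)) {N : ℕ} (x : Fin N → En n) {ε : ℝ} (hε : ε ≤ 1)
    (hx : ∀ v : En n, ∑ j, |⟪v, x j⟫| ≤ (1 + ε) * ‖v‖) :
    ∑ j, Rv L (x j) ≤ 4 * √(Module.finrank ℝ L) := by
  have hkap := half_le_kap
  have h1 : ∀ p : En n × En n, kap * ∑ j, ‖actT (Hm L p) (x j)‖ ≤ 2 * ‖Hm L p‖ := by
    intro p
    have e1 : ∀ j, kap * ‖actT (Hm L p) (x j)‖ = ∫ z, |⟪act (Hm L p) z, x j⟫| ∂(gm n) := by
      intro j
      have := integral_inner_abs (E := En n) (actT (Hm L p) (x j))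
      rw [mul_comm]
      unfold kap
      rw [← this]
      congr 1
      ext z
      rw [← inner_act, real_inner_comm]
    have hint : ∀ j, Integrable (fun z => |⟪act (Hm L p) z, x j⟫|) (gm n) := by
      intro j
      have := (inner_pow_integrable (actT (Hm L p) (x j)) 1).abs
      simp only [pow_one] at this
      refine this.congr (Eventually.of_forall fun z => ?_)
      simp only
      rw [← inner_act, real_inner_comm]
    rw [Finset.mul_sum]
    simp only [e1]
    rw [← integral_finsetSum _ (fun j _ => hint j)]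
    calc ∫ z, ∑ j, |⟪act (Hm L p) z, x j⟫| ∂(gm n)
        ≤ ∫ z, 2 * ‖act (Hm L p) z‖ ∂(gm n) := by
          apply integral_mono (integrable_finsetSum _ (fun j _ => hint j))
            ((act_integrable _).const_mul 2)
          intro z
          refine (hx _).trans ?_
          have := norm_nonneg (act (Hm L p) z)
          simp only
          nlinarith
      _ = 2 * ∫ z, ‖act (Hm L p) z‖ ∂(gm n) := integral_const_mul _ _
      _ ≤ 2 * ‖Hm L p‖ := by have := integral_act_le (Hm L p); linarith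
  have h2 : kap * ∑ j, Rv L (x j) ≤ 2 * √(Module.finrank ℝ L) := by
    unfold Rv
    rw [← integral_finsetSum _ (fun j _ => actT_integrable L (x j)), ← integral_const_mul]
    calc ∫ p, kap * ∑ j, ‖actT (Hm L p) (x j)‖ ∂(gm2 n)
        ≤ ∫ p, 2 * ‖Hm L p‖ ∂(gm2 n) := by
          apply integral_mono
            ((integrable_finsetSum _ (fun j _ => actT_integrable L (x j))).const_mul _)
            ((Hm_integrable L).const_mul 2)
          exact h1
      _ = 2 * ∫ p, ‖Hm L p‖ ∂(gm2 n) := integral_const_mul _ _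
      _ ≤ _ := by have := integral_Hm_le L; linarith
  have h3 : 0 ≤ ∑ j, Rv L (x j) :=
    Finset.sum_nonneg fun j _ => integral_nonneg fun p => norm_nonneg _
  nlinarith

/-- expected norm -/
noncomputable def Nv (L : Submodule ℝ (Vn n)) (σ : ℝ) : ℝ :=
  ∫ x : (En n × En n) × (En n × En n), ‖Xv L σ x.1 x.2‖ ∂((gm2 n).prod (gm2 n))

lemma integral_norm_sq : ∫ z : En n, ‖z‖ ^ 2 ∂(gm n) = n := by
  have h : ∀ z : En n, ‖z‖ ^ 2 = ∑ i, ⟪bv i, z⟫ ^ 2 := by
    intro z; simp only [inner_bv]; exact EuclideanSpace.real_norm_sq_eq z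
  simp only [h]
  rw [integral_finsetSum _ (fun i _ => inner_pow_integrable _ 2)]
  simp [integral_inner_sq, bv]

lemma norm_integrable_one : Integrable (fun z : En n => ‖z‖) (gm n) := by
  simpa using norm_pow_integrable (E := En n) 1

lemma integral_norm_le : ∫ z : En n, ‖z‖ ∂(gm n) ≤ √n :=
  integral_le_sqrt _ norm_integrable_one (norm_pow_integrable 2) integral_norm_sq.le

lemma Nv_nonneg (L : Submodule ℝ (Vn n)) (σ : ℝ) : 0 ≤ Nv L σ :=
  integral_nonneg fun _ => norm_nonneg _

lemma Nv_le (L : Submodule ℝ (Vn n)) (σ : ℝ) :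
    Nv L σ ≤ 4 * √n + |σ| * √(Module.finrank ℝ L) := by
  unfold Nv
  rw [integral_prod _ (norm_Xv_integrable L σ)]
  have hn := integral_norm_le (n := n)
  have i1 : Integrable (fun w : En n × En n => ‖w.1‖) (gm2 n) := norm_integrable_one.comp_fst _
  have i2 : Integrable (fun w : En n × En n => ‖w.2‖) (gm2 n) := norm_integrable_one.comp_snd _
  have e1 : ∫ w : En n × En n, ‖w.1‖ ∂(gm2 n) ≤ √n := by
    have := integral_fun_fst (μ := gm n) (ν := gm n) (fun z : En n => ‖z‖)
    simp only [probReal_univ, one_smul] at this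
    rw [this]; exact hn
  have e2 : ∫ w : En n × En n, ‖w.2‖ ∂(gm2 n) ≤ √n := by
    have := integral_fun_snd (μ := gm n) (ν := gm n) (fun z : En n => ‖z‖)
    simp only [probReal_univ, one_smul] at this
    rw [this]; exact hn
  have inner : ∀ p : En n × En n, ∫ w, ‖Xv L σ p w‖ ∂(gm2 n) ≤
      (‖p.1‖ + ‖p.2‖ + |σ| * ‖Hm L p‖) + 2 * √n := by
    intro p
    have i3 : Integrable (fun w : En n × En n => ‖act (Hm L p) w.1‖) (gm2 n) :=
      (act_integrable (Hm L p)).comp_fst _
    have e3 : ∫ w : En n × En n, ‖act (Hm L p) w.1‖ ∂(gm2 n) ≤ ‖Hm L p‖ := by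
      have := integral_fun_fst (μ := gm n) (ν := gm n) (fun z : En n => ‖act (Hm L p) z‖)
      simp only [probReal_univ, one_smul] at this
      rw [this]; exact integral_act_le _
    have hX : Integrable (fun w => ‖Xv L σ p w‖) (gm2 n) := by
      refine ((wt_integrable (n := n) 1).const_mul ((4 + |σ|) * wt 1 p)).mono' ?_
        (Eventually.of_forall fun w => ?_)
      · exact ((Xv_continuous L σ).comp
          (continuous_const.prodMk continuous_id)).norm.aestronglyMeasurable
      · rw [norm_norm]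
        refine (norm_Xv_le L σ p w).trans (le_of_eq ?_)
        ring
    have j1 : Integrable (fun w : En n × En n => ‖w.2‖ + |σ| * ‖act (Hm L p) w.1‖) (gm2 n) :=
      i2.add (i3.const_mul _)
    have j2 : Integrable (fun w : En n × En n => ‖w.1‖ + (‖w.2‖ + |σ| * ‖act (Hm L p) w.1‖))
      (gm2 n) := i1.add j1
    have j3 : Integrable (fun w : En n × En n => (‖p.1‖ + ‖p.2‖) +
      (‖w.1‖ + (‖w.2‖ + |σ| * ‖act (Hm L p) w.1‖))) (gm2 n) := (integrable_const _).add j2
    calc ∫ w, ‖Xv L σ p w‖ ∂(gm2 n)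
        ≤ ∫ w, ((‖p.1‖ + ‖p.2‖) + (‖w.1‖ + (‖w.2‖ + |σ| * ‖act (Hm L p) w.1‖))) ∂(gm2 n) := by
          apply integral_mono hX j3
          intro w
          simp only
          unfold Xv
          refine (norm_add_le _ _).trans ?_
          rw [norm_smul, Real.norm_eq_abs]
          have := norm_add₄_le (a := p.1) (b := p.2) (c := w.1) (d := w.2)
          linarith
      _ = (‖p.1‖ + ‖p.2‖) + (∫ w : En n × En n, ‖w.1‖ ∂(gm2 n) +
            (∫ w : En n × En n, ‖w.2‖ ∂(gm2 n) +
              |σ| * ∫ w : En n × En n, ‖act (Hm L p) w.1‖ ∂(gm2 n))) := by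
          rw [integral_add (integrable_const _) j2,
            integral_add i1 j1, integral_add i2 (i3.const_mul _),
            integral_const_mul]
          simp
      _ ≤ _ := by
          have : |σ| * ∫ w : En n × En n, ‖act (Hm L p) w.1‖ ∂(gm2 n) ≤ |σ| * ‖Hm L p‖ :=
            mul_le_mul_of_nonneg_left e3 (abs_nonneg _)
          linarith
  have i4 := (Hm_integrable L).const_mul |σ|
  have j1 : Integrable (fun p : En n × En n => ‖p.2‖ + |σ| * ‖Hm L p‖) (gm2 n) := i2.add i4
  have j2 : Integrable (fun p : En n × En n => ‖p.1‖ + (‖p.2‖ + |σ| * ‖Hm L p‖)) (gm2 n) :=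
    i1.add j1
  have j3 : Integrable (fun p : En n × En n => (‖p.1‖ + (‖p.2‖ + |σ| * ‖Hm L p‖)) + 2 * √n)
    (gm2 n) := j2.add (integrable_const _)
  calc ∫ p, ∫ w, ‖Xv L σ p w‖ ∂(gm2 n) ∂(gm2 n)
      ≤ ∫ p : En n × En n, ((‖p.1‖ + (‖p.2‖ + |σ| * ‖Hm L p‖)) + 2 * √n) ∂(gm2 n) := by
        apply integral_mono (norm_Xv_integrable L σ).integral_prod_left j3
        intro p
        simp only
        have := inner p
        linarith
    _ = (∫ w : En n × En n, ‖w.1‖ ∂(gm2 n) + (∫ w : En n × En n, ‖w.2‖ ∂(gm2 n) +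
          |σ| * ∫ p, ‖Hm L p‖ ∂(gm2 n))) + 2 * √n := by
        rw [integral_add j2 (integrable_const _),
          integral_add i1 j1, integral_add i2 i4, integral_const_mul]
        simp
    _ ≤ _ := by
        have : |σ| * ∫ p, ‖Hm L p‖ ∂(gm2 n) ≤ |σ| * √(Module.finrank ℝ L) :=
          mul_le_mul_of_nonneg_left (integral_Hm_le L) (abs_nonneg _)
        linarith

end Pool.Agent.Helper61.Zono
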