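import Pool.Agent.Helper61.Zono.Norm

/-! The difference of the expected norms of the two test vectors. -/

open MeasureTheory ProbabilityTheory Real Filter Topology
open scoped NNReal RealInnerProductSpace

namespace Pool.Agent.Helper61.Zono

variable {n : ℕ}

lemma integral_Ev (L : Submodule ℝ (Vn n)) (σ : ℝ) :
    ∫ z, Ev L σ z ∂(gm n) = kap * Nv L σ ∧ Integrable (fun z => Ev L σ z) (gm n) := by
  have hi : Integrable (fun x : En n × ((En n × En n) × (En n × En n)) =>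
      |⟪Xv L σ x.2.1 x.2.2, x.1⟫|) ((gm n).prod ((gm2 n).prod (gm2 n))) := by
    refine (norm_integrable_one.mul_prod (norm_Xv_integrable L σ)).mono' ?_
      (Eventually.of_forall fun x => ?_)
    · exact (((Xv_continuous L σ).comp continuous_snd).inner
        continuous_fst).abs.aestronglyMeasurable
    · rw [Real.norm_eq_abs, abs_abs, mul_comm]
      exact abs_real_inner_le_norm _ _
  constructor
  · unfold Ev Nv
    rw [integral_integral_swap hi, ← integral_const_mul]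
    congr 1
    ext x
    rw [integral_inner_abs, mul_comm]
    rfl
  · exact hi.integral_prod_left

lemma integral_abs_qv_le (L : Submodule ℝ (Vn n)) (v : En n) :
    Integrable (fun p => |qv L p v|) (gm2 n) ∧
    ∫ p, |qv L p v| ∂(gm2 n) ≤ ‖pr L (tens v v)‖ := by
  have e : ∀ p : En n × En n, qv L p v = ⟪pr L (tens v v), tens p.1 p.2⟫ := by
    intro p
    unfold qv Hm
    rw [inner_pr, real_inner_comm]
  simp only [e]
  have hi : Integrable (fun p : En n × En n => |⟪pr L (tens v v), tens p.1 p.2⟫|) (gm2 n) := by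
    refine ((wt_integrable (n := n) 1).const_mul ‖pr L (tens v v)‖).mono' ?_
      (Eventually.of_forall fun p => ?_)
    · exact (continuous_const.inner tens_continuous).abs.aestronglyMeasurable
    · rw [Real.norm_eq_abs, abs_abs]
      refine (abs_real_inner_le_norm _ _).trans ?_
      rw [norm_tens]
      gcongr
      unfold wt
      nlinarith [norm_nonneg p.1, norm_nonneg p.2]
  refine ⟨hi, ?_⟩
  have h := integral_le_sqrt (gm2 n) hi (by
      simpa only [sq_abs] using tens_inner_sq_integrable (pr L (tens v v)))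
    (A := ‖pr L (tens v v)‖ ^ 2) (by
      simp only [sq_abs]; exact (integral_tens_sq _).le)
  rwa [Real.sqrt_sq (norm_nonneg _)] at h

lemma Ev_zero (L : Submodule ℝ (Vn n)) (σ : ℝ) : Ev L σ 0 = 0 := by
  unfold Ev; simp

lemma abs_Ev_sub_le (L : Submodule ℝ (Vn n)) {τ : ℝ} (hτ : 0 ≤ τ) (v : En n) :
    |Ev L (-τ) v - Ev L τ v| ≤ 4 * τ * (‖pr L (tens v v)‖ / ‖v‖) := by
  rcases eq_or_ne v 0 with h0 | h0
  · rw [h0, Ev_zero, Ev_zero]; simp
  · have hn : 0 < ‖v‖ := norm_pos_iff.2 h0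
    rw [Ev_sub]
    obtain ⟨hi, hle⟩ := integral_abs_qv_le L v
    have hpt : ∀ p : En n × En n, ‖Th ⟪p.1 + p.2, v⟫ (sv L (-τ) p v) -
        Th ⟪p.1 + p.2, v⟫ (sv L τ p v)‖ ≤ (4 * τ / ‖v‖) * |qv L p v| := by
      intro p
      rw [Real.norm_eq_abs]
      have g1 : ‖v‖ ^ 2 ≤ sv L (-τ) p v := by
        unfold sv; nlinarith [sq_nonneg ‖v + -τ • actT (Hm L p) v‖]
      have g2 : ‖v‖ ^ 2 ≤ sv L τ p v := by
        unfold sv; nlinarith [sq_nonneg ‖v + τ • actT (Hm L p) v‖]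
      refine (Th_lip _ hn g1 g2).trans (le_of_eq ?_)
      have e3 : sv L (-τ) p v - sv L τ p v = -(4 * τ * qv L p v) := by
        rw [sv_eq, sv_eq]; ring
      rw [e3, abs_neg, abs_mul, abs_of_nonneg (by positivity : (0 : ℝ) ≤ 4 * τ)]
      ring
    rw [← Real.norm_eq_abs]
    calc ‖∫ p, (Th ⟪p.1 + p.2, v⟫ (sv L (-τ) p v) - Th ⟪p.1 + p.2, v⟫ (sv L τ p v)) ∂(gm2 n)‖
        ≤ ∫ p, (4 * τ / ‖v‖) * |qv L p v| ∂(gm2 n) :=
          norm_integral_le_of_norm_le (hi.const_mul _) (Eventually.of_forall hpt)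
      _ = (4 * τ / ‖v‖) * ∫ p, |qv L p v| ∂(gm2 n) := integral_const_mul _ _
      _ ≤ (4 * τ / ‖v‖) * ‖pr L (tens v v)‖ := mul_le_mul_of_nonneg_left hle (by positivity)
      _ = _ := by ring

lemma pr_tens_le (L : Submodule ℝ (Vn n)) (v : En n) : ‖pr L (tens v v)‖ ≤ ‖v‖ ^ 2 := by
  refine (norm_pr_le _ _).trans ?_
  rw [norm_tens, sq]

lemma ratio_le (L : Submodule ℝ (Vn n)) (hn : 0 < n) (v : En n) :
    ‖pr L (tens v v)‖ / ‖v‖ ≤ √2 / √n * ‖pr L (tens v v)‖ +
      (‖v‖ ^ 2 / n + n * (1 - ‖v‖ ^ 2 / n) ^ 2) := by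
  have hn' : (0 : ℝ) < n := by exact_mod_cast hn
  have hR := pr_tens_le L v
  have hR0 := norm_nonneg (pr L (tens v v))
  set R := ‖pr L (tens v v)‖ with hRdef
  have hv0 := norm_nonneg v
  rcases hv0.eq_or_lt with h0 | h0
  · rw [← h0]
    simp only [div_zero]
    positivity
  · rcases le_total ((n : ℝ) / 2) (‖v‖ ^ 2) with h | h
    · have h1 : R / ‖v‖ ≤ √2 / √n * R := by
        have h2 : √n / √2 ≤ ‖v‖ := by
          rw [← Real.sqrt_div (by positivity)]
          rw [Real.sqrt_le_left hv0]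
          exact h
        have h3 : 1 / ‖v‖ ≤ √2 / √n := by
          rw [div_le_div_iff₀ h0 (by positivity)]
          have h4 : (0 : ℝ) < √2 := by positivity
          rw [div_le_iff₀ h4] at h2
          linarith
        calc R / ‖v‖ = 1 / ‖v‖ * R := by ring
          _ ≤ _ := mul_le_mul_of_nonneg_right h3 hR0
      have h5 : 0 ≤ ‖v‖ ^ 2 / n + n * (1 - ‖v‖ ^ 2 / n) ^ 2 := by positivity
      linarith
    · have h1 : R / ‖v‖ ≤ ‖v‖ := by
        rw [div_le_iff₀ h0, ← sq]; exact hR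
      have h2 : ‖v‖ ^ 2 / n ≤ 1 / 2 := by
        rw [div_le_iff₀ hn']; linarith
      set w := ‖v‖ ^ 2 / n with hw
      have h6 : ‖v‖ ≤ 2 * (‖v‖ * (1 - w)) := by nlinarith
      have h7 : 2 * (‖v‖ * (1 - w)) ≤ ‖v‖ ^ 2 / n + n * (1 - w) ^ 2 := by
        have h8 : 0 ≤ (‖v‖ - n * (1 - w)) ^ 2 / n := by positivity
        have h9 : (‖v‖ - n * (1 - w)) ^ 2 / n =
            ‖v‖ ^ 2 / n + n * (1 - w) ^ 2 - 2 * (‖v‖ * (1 - w)) := by
          field_simp
          ring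
        linarith
      have h10 : 0 ≤ √2 / √n * R := by positivity
      linarith

lemma inner_idt_tens (v : En n) : ⟪idt n, tens v v⟫ = ‖v‖ ^ 2 := by
  rw [inner_tens]
  have : act (idt n) v = v := by
    ext i
    simp [idt]
  rw [this, real_inner_self_eq_norm_sq]

lemma integral_norm_four : ∫ z : En n, ‖z‖ ^ 4 ∂(gm n) ≤ 2 * n + n ^ 2 := by
  have h := integral_diag_sq (idt n)
  simp only [inner_idt_tens, ← pow_mul] at h
  rw [norm_idt_sq, real_inner_self_eq_norm_sq, norm_idt_sq] at h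
  exact h

lemma integral_dev (hn : 0 < n) :
    Integrable (fun z : En n => ‖z‖ ^ 2 / n + n * (1 - ‖z‖ ^ 2 / n) ^ 2) (gm n) ∧
    ∫ z : En n, (‖z‖ ^ 2 / n + n * (1 - ‖z‖ ^ 2 / n) ^ 2) ∂(gm n) ≤ 3 := by
  have hn' : (0 : ℝ) < n := by exact_mod_cast hn
  have e : ∀ z : En n, ‖z‖ ^ 2 / n + n * (1 - ‖z‖ ^ 2 / n) ^ 2 =
      (n + (1 / n - 2) * ‖z‖ ^ 2) + (1 / n) * ‖z‖ ^ 4 := by
    intro z
    field_simp
    ring
  simp only [e]
  have i2 := (norm_pow_integrable (E := En n) 2).const_mul (1 / (n : ℝ) - 2)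
  have i4 := (norm_pow_integrable (E := En n) 4).const_mul (1 / (n : ℝ))
  have j : Integrable (fun z : En n => (n : ℝ) + (1 / n - 2) * ‖z‖ ^ 2) (gm n) :=
    (integrable_const _).add i2
  refine ⟨j.add i4, ?_⟩
  rw [integral_add j i4, integral_add (integrable_const _) i2, integral_const_mul,
    integral_const_mul, integral_norm_sq]
  have h4 := integral_norm_four (n := n)
  have h5 : 1 / (n : ℝ) * ∫ z : En n, ‖z‖ ^ 4 ∂(gm n) ≤ 1 / n * (2 * n + n ^ 2) :=
    mul_le_mul_of_nonneg_left h4 (by positivity)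
  have h6 : 1 / (n : ℝ) * (2 * n + n ^ 2) = 2 + n := by field_simp
  have h7 : (1 / (n : ℝ) - 2) * n = 1 - 2 * n := by field_simp
  simp only [integral_const, probReal_univ, one_smul]
  rw [h7]
  linarith

lemma pr_diag_integrable (L : Submodule ℝ (Vn n)) :
    Integrable (fun z => ‖pr L (tens z z)‖) (gm n) ∧
    Integrable (fun z => ‖pr L (tens z z)‖ ^ 2) (gm n) := by
  have hc : Continuous (fun z : En n => pr L (tens z z)) :=
    (pr_continuous L).comp (tens_continuous.comp (continuous_id.prodMk continuous_id))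
  constructor
  · refine (norm_pow_integrable (E := En n) 2).mono' hc.norm.aestronglyMeasurable
      (Eventually.of_forall fun z => ?_)
    rw [norm_norm]; exact pr_tens_le L z
  · refine (norm_pow_integrable (E := En n) 4).mono' (hc.norm.pow 2).aestronglyMeasurable
      (Eventually.of_forall fun z => ?_)
    rw [norm_pow, norm_norm]
    calc ‖pr L (tens z z)‖ ^ 2 ≤ (‖z‖ ^ 2) ^ 2 :=
          pow_le_pow_left₀ (norm_nonneg _) (pr_tens_le L z) 2
      _ = ‖z‖ ^ 4 := by ring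

lemma Nv_diff (L : Submodule ℝ (Vn n)) (hn : 0 < n) {τ : ℝ} (hτ : 0 ≤ τ) :
    kap * (Nv L (-τ) - Nv L τ) ≤
      4 * τ * (√2 / √n * √(2 * Module.finrank ℝ L + n) + 3) := by
  obtain ⟨e1, i1⟩ := integral_Ev L (-τ)
  obtain ⟨e2, i2⟩ := integral_Ev L τ
  obtain ⟨i3, h3⟩ := integral_dev (n := n) hn
  obtain ⟨i4, i5⟩ := pr_diag_integrable L
  rw [mul_sub, ← e1, ← e2, ← integral_sub i1 i2]
  have hpt : ∀ z : En n, Ev L (-τ) z - Ev L τ z ≤ 4 * τ * (√2 / √n * ‖pr L (tens z z)‖ +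
      (‖z‖ ^ 2 / n + n * (1 - ‖z‖ ^ 2 / n) ^ 2)) := by
    intro z
    refine (le_abs_self _).trans ((abs_Ev_sub_le L hτ z).trans ?_)
    exact mul_le_mul_of_nonneg_left (ratio_le L hn z) (by positivity)
  have i6 : Integrable (fun z : En n => √2 / √n * ‖pr L (tens z z)‖ +
      (‖z‖ ^ 2 / n + n * (1 - ‖z‖ ^ 2 / n) ^ 2)) (gm n) := (i4.const_mul _).add i3
  calc ∫ z, (Ev L (-τ) z - Ev L τ z) ∂(gm n)
      ≤ ∫ z : En n, 4 * τ * (√2 / √n * ‖pr L (tens z z)‖ +
      (‖z‖ ^ 2 / n + n * (1 - ‖z‖ ^ 2 / n) ^ 2)) ∂(gm n) :=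
        integral_mono (i1.sub i2) (i6.const_mul _) hpt
    _ = 4 * τ * (√2 / √n * ∫ z, ‖pr L (tens z z)‖ ∂(gm n) +
        ∫ z : En n, (‖z‖ ^ 2 / n + n * (1 - ‖z‖ ^ 2 / n) ^ 2) ∂(gm n)) := by
        rw [integral_const_mul, integral_add (i4.const_mul _) i3, integral_const_mul]
    _ ≤ _ := by
        have h7 := integral_le_sqrt (gm n) i4 i5 (integral_pr_diag L)
        gcongr

end Pool.Agent.Helper61.Zono
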