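import Pool.Agent.Helper61.Zono.Test

/-! The signal: lower bound for the difference of expectations at the given vectors. -/

open MeasureTheory ProbabilityTheory Real Filter Topology
open scoped NNReal RealInnerProductSpace

namespace Pool.Agent.Helper61.Zono

lemma qd_continuous_two : Continuous (fun m : ℝ => qd m 2) := by
  unfold qd
  exact continuous_const.mul (ph_continuous.comp (continuous_id.div_const _))

lemma qd_anti {x y : ℝ} (h : |x| ≤ |y|) : qd y 2 ≤ qd x 2 := by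
  unfold qd ph
  have h2 : x ^ 2 ≤ y ^ 2 := sq_le_sq.2 h
  have hs : √2 ^ 2 = (2 : ℝ) := Real.sq_sqrt (by norm_num)
  have : -(y / √2) ^ 2 / 2 ≤ -(x / √2) ^ 2 / 2 := by
    rw [div_pow, div_pow, hs]; linarith
  gcongr

lemma qd_anti_strict {x y : ℝ} (h : x ^ 2 < y ^ 2) : qd y 2 < qd x 2 := by
  unfold qd ph
  have hs : √2 ^ 2 = (2 : ℝ) := Real.sq_sqrt (by norm_num)
  have : -(y / √2) ^ 2 / 2 < -(x / √2) ^ 2 / 2 := by
    rw [div_pow, div_pow, hs]; linarith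
  gcongr

/-- the integrand of the signal constant -/
noncomputable def gs (x : ℝ × ℝ) : ℝ := -(x.1 * x.2) * qd (x.1 + x.2) 2

/-- the signal constant -/
noncomputable def c1 : ℝ := ∫ x, gs x ∂((gaussianReal 0 1).prod (gaussianReal 0 1))

lemma gs_continuous : Continuous gs := by
  unfold gs
  have := qd_continuous_two
  exact (continuous_fst.mul continuous_snd).neg.mul
    (this.comp (continuous_fst.add continuous_snd))

lemma abs_integrable_g1 : Integrable (fun x : ℝ => |x|) (gaussianReal 0 1) := by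
  have h : MemLp id 1 (gaussianReal 0 1) := by
    have := memLp_id_gaussianReal (μ := 0) (v := 1) (1 : ℝ≥0)
    simpa using this
  exact (memLp_one_iff_integrable.1 h).abs

lemma gs_abs_le (x : ℝ × ℝ) : |gs x| ≤ |x.1| * |x.2| := by
  unfold gs
  rw [abs_mul, abs_neg, abs_mul, abs_of_nonneg (qd_nonneg _ _)]
  have := qd_le_one (x.1 + x.2) (s := 2) (by norm_num)
  have h : 0 ≤ |x.1| * |x.2| := by positivity
  nlinarith [qd_nonneg (x.1 + x.2) 2]

lemma gs_integrable : Integrable gs ((gaussianReal 0 1).prod (gaussianReal 0 1)) := by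
  refine (abs_integrable_g1.mul_prod abs_integrable_g1).mono' gs_continuous.aestronglyMeasurable
    (Eventually.of_forall fun x => ?_)
  rw [Real.norm_eq_abs]
  exact gs_abs_le x

lemma g1_neg : (gaussianReal 0 1).map (fun x => -x) = gaussianReal 0 1 := by
  rw [gaussianReal_map_neg]; simp

lemma c1_flip : c1 = ∫ x : ℝ × ℝ, gs (x.1, -x.2) ∂((gaussianReal 0 1).prod (gaussianReal 0 1)) := by
  have h : ((gaussianReal 0 1).prod (gaussianReal 0 1)).map (Prod.map id (fun x : ℝ => -x)) =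
      (gaussianReal 0 1).prod (gaussianReal 0 1) := by
    rw [← Measure.map_prod_map _ _ (by fun_prop) (by fun_prop), g1_neg, Measure.map_id]
  unfold c1
  nth_rewrite 1 [← h]
  rw [integral_map (by fun_prop) gs_continuous.aestronglyMeasurable]
  rfl

lemma gs_flip_nonneg (x : ℝ × ℝ) : 0 ≤ gs x + gs (x.1, -x.2) := by
  have e : gs x + gs (x.1, -x.2) = (x.1 * x.2) * (qd (x.1 - x.2) 2 - qd (x.1 + x.2) 2) := by
    unfold gs; simp only [← sub_eq_add_neg]; ring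
  rw [e]
  rcases le_total 0 (x.1 * x.2) with h | h
  · have : qd (x.1 + x.2) 2 ≤ qd (x.1 - x.2) 2 := qd_anti (sq_le_sq.1 (by nlinarith))
    exact mul_nonneg h (by linarith)
  · have : qd (x.1 - x.2) 2 ≤ qd (x.1 + x.2) 2 := qd_anti (sq_le_sq.1 (by nlinarith))
    exact mul_nonneg_of_nonpos_of_nonpos h (by linarith)

lemma gs_flip_pos {x : ℝ × ℝ} (h1 : 0 < x.1) (h2 : 0 < x.2) : 0 < gs x + gs (x.1, -x.2) := by
  have e : gs x + gs (x.1, -x.2) = (x.1 * x.2) * (qd (x.1 - x.2) 2 - qd (x.1 + x.2) 2) := by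
    unfold gs; simp only [← sub_eq_add_neg]; ring
  rw [e]
  have h := mul_pos h1 h2
  have : qd (x.1 + x.2) 2 < qd (x.1 - x.2) 2 := qd_anti_strict (by nlinarith)
  exact mul_pos h (by linarith)

lemma gs_flip_integrable : Integrable (fun x : ℝ × ℝ => gs (x.1, -x.2))
    ((gaussianReal 0 1).prod (gaussianReal 0 1)) := by
  refine (abs_integrable_g1.mul_prod abs_integrable_g1).mono' ?_
    (Eventually.of_forall fun x => ?_)
  · exact (gs_continuous.comp (by fun_prop)).aestronglyMeasurable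
  · rw [Real.norm_eq_abs]
    have := gs_abs_le (x.1, -x.2)
    simpa using this

lemma c1_pos : 0 < c1 := by
  have h2 : 2 * c1 = ∫ x : ℝ × ℝ, (gs x + gs (x.1, -x.2))
      ∂((gaussianReal 0 1).prod (gaussianReal 0 1)) := by
    rw [integral_add gs_integrable gs_flip_integrable, ← c1_flip]
    unfold c1; ring
  have h3 : 0 < ∫ x : ℝ × ℝ, (gs x + gs (x.1, -x.2))
      ∂((gaussianReal 0 1).prod (gaussianReal 0 1)) := by
    rw [integral_pos_iff_support_of_nonneg gs_flip_nonneg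
      (gs_integrable.add gs_flip_integrable)]
    have hsub : (Set.Ioi (0 : ℝ)) ×ˢ (Set.Ioi (0 : ℝ)) ⊆
        Function.support (fun x : ℝ × ℝ => gs x + gs (x.1, -x.2)) := by
      rintro x ⟨h1, h2⟩
      rw [Function.mem_support]
      exact (gs_flip_pos h1 h2).ne'
    refine lt_of_lt_of_le ?_ (measure_mono hsub)
    rw [Measure.prod_prod]
    have hpos : gaussianReal 0 1 (Set.Ioi (0 : ℝ)) ≠ 0 := by
      intro h0
      have := gaussianReal_absolutelyContinuous' 0 (v := 1) one_ne_zero h0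
      simp at this
    exact ENNReal.mul_pos hpos hpos
  linarith

lemma c1_le_one : c1 ≤ 1 := by
  have h : c1 ≤ ∫ x : ℝ × ℝ, |x.1| * |x.2| ∂((gaussianReal 0 1).prod (gaussianReal 0 1)) :=
    integral_mono gs_integrable (abs_integrable_g1.mul_prod abs_integrable_g1)
      (fun x => (le_abs_self _).trans (gs_abs_le x))
  rw [integral_prod_mul (fun x : ℝ => |x|) (fun x : ℝ => |x|)] at h
  have h1 := kap_le_one
  have h2 := kap_pos
  unfold kap at h1 h2
  nlinarith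

variable {n : ℕ}

lemma pair_law (u : En n) (hu : ‖u‖ = 1) :
    (gm2 n).map (fun p => (⟪u, p.1⟫, ⟪u, p.2⟫)) =
      (gaussianReal 0 1).prod (gaussianReal 0 1) := by
  have e : (fun p : En n × En n => (⟪u, p.1⟫, ⟪u, p.2⟫)) =
      Prod.map (fun z => ⟪u, z⟫) (fun z => ⟪u, z⟫) := by ext p <;> rfl
  rw [e, ← Measure.map_prod_map _ _ (by fun_prop) (by fun_prop), map_inner, hu]
  simp only [one_mul, Measure.map_id']

lemma integral_pair (u : En n) (hu : ‖u‖ = 1) (f : ℝ × ℝ → ℝ) (hf : Continuous f) :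
    ∫ p, f (⟪u, p.1⟫, ⟪u, p.2⟫) ∂(gm2 n) =
      ∫ x, f x ∂((gaussianReal 0 1).prod (gaussianReal 0 1)) := by
  rw [← pair_law u hu, integral_map (by fun_prop) hf.aestronglyMeasurable]

lemma integral_pair_sq (u : En n) (hu : ‖u‖ = 1) :
    ∫ p, (⟪u, p.1⟫ * ⟪u, p.2⟫) ^ 2 ∂(gm2 n) = 1 := by
  rw [integral_pair u hu (fun x => (x.1 * x.2) ^ 2) (by fun_prop)]
  simp only [mul_pow]
  rw [integral_prod_mul (fun x : ℝ => x ^ 2) (fun x : ℝ => x ^ 2), moment_two]
  norm_num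

/-- pointwise inequality -/
lemma min_bound {τ ρ q K : ℝ} (hτ : 0 ≤ τ) (hρ : 0 ≤ ρ) (hK : 0 < K) :
    |q| * min 1 (τ ^ 2 * ρ ^ 2 + 2 * τ * |q|) ≤ K * τ * ρ + q ^ 2 / K + 2 * τ * q ^ 2 := by
  have hq := abs_nonneg q
  have hqq : |q| ^ 2 = q ^ 2 := sq_abs q
  have h1 : min 1 (τ ^ 2 * ρ ^ 2 + 2 * τ * |q|) ≤ min 1 (τ ^ 2 * ρ ^ 2) + 2 * τ * |q| := by
    have h0 : 0 ≤ 2 * τ * |q| := by positivity
    rcases le_total 1 (τ ^ 2 * ρ ^ 2) with h | h
    · rw [min_eq_left h]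
      exact (min_le_left _ _).trans (by linarith)
    · rw [min_eq_right h]
      exact min_le_right _ _
  have h2 : min 1 (τ ^ 2 * ρ ^ 2) ≤ τ * ρ := by
    have h0 : 0 ≤ τ * ρ := mul_nonneg hτ hρ
    rcases le_total 1 (τ * ρ) with h | h
    · exact (min_le_left _ _).trans h
    · refine (min_le_right _ _).trans ?_
      nlinarith
  have h3 : |q| * min 1 (τ ^ 2 * ρ ^ 2) ≤ K * τ * ρ + q ^ 2 / K := by
    have hm0 : 0 ≤ min 1 (τ ^ 2 * ρ ^ 2) := le_min zero_le_one (by positivity)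
    rcases le_total |q| K with h | h
    · have : |q| * min 1 (τ ^ 2 * ρ ^ 2) ≤ K * (τ * ρ) := mul_le_mul h h2 hm0 hK.le
      have h4 : 0 ≤ q ^ 2 / K := by positivity
      linarith
    · have h5 : |q| * min 1 (τ ^ 2 * ρ ^ 2) ≤ |q| * 1 :=
        mul_le_mul_of_nonneg_left (min_le_left _ _) hq
      have h6 : |q| ≤ q ^ 2 / K := by
        rw [le_div_iff₀ hK, ← hqq]; nlinarith
      have h7 : 0 ≤ K * τ * ρ := by positivity
      linarith
  calc |q| * min 1 (τ ^ 2 * ρ ^ 2 + 2 * τ * |q|)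
      ≤ |q| * (min 1 (τ ^ 2 * ρ ^ 2) + 2 * τ * |q|) := mul_le_mul_of_nonneg_left h1 hq
    _ = |q| * min 1 (τ ^ 2 * ρ ^ 2) + 2 * τ * |q| ^ 2 := by ring
    _ ≤ _ := by rw [hqq]; linarith

lemma qv_of_mem {L : Submodule ℝ (Vn n)} {u : En n} (hu : tens u u ∈ L) (p : En n × En n) :
    qv L p u = ⟪u, p.1⟫ * ⟪u, p.2⟫ := by
  unfold qv Hm
  rw [inner_pr, pr_of_mem hu, inner_tens_tens, real_inner_comm u, real_inner_comm u]

lemma signal_pointwise {L : Submodule ℝ (Vn n)} {u : En n} (hu : tens u u ∈ L) (h1 : ‖u‖ = 1)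
    {τ K : ℝ} (hτ : 0 ≤ τ) (hK : 0 < K) (p : En n × En n) :
    4 * τ * gs (⟪u, p.1⟫, ⟪u, p.2⟫) - 4 * τ * (K * τ * ‖actT (Hm L p) u‖ +
      (⟪u, p.1⟫ * ⟪u, p.2⟫) ^ 2 / K + 2 * τ * (⟪u, p.1⟫ * ⟪u, p.2⟫) ^ 2) ≤
    Th ⟪p.1 + p.2, u⟫ (sv L (-τ) p u) - Th ⟪p.1 + p.2, u⟫ (sv L τ p u) := by
  set q := ⟪u, p.1⟫ * ⟪u, p.2⟫ with hq
  set ρ := ‖actT (Hm L p) u‖ with hρ
  have e1 : sv L (-τ) p u = 2 + τ ^ 2 * ρ ^ 2 - 2 * τ * q := by
    rw [sv_eq, qv_of_mem hu, h1]; ring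
  have e2 : sv L τ p u = 2 + τ ^ 2 * ρ ^ 2 + 2 * τ * q := by
    rw [sv_eq, qv_of_mem hu, h1]; ring
  have g1 : 1 ≤ sv L (-τ) p u := by
    unfold sv; rw [h1]; nlinarith [sq_nonneg ‖u + -τ • actT (Hm L p) u‖]
  have g2 : 1 ≤ sv L τ p u := by
    unfold sv; rw [h1]; nlinarith [sq_nonneg ‖u + τ • actT (Hm L p) u‖]
  have hB1 : |sv L (-τ) p u - 2| ≤ τ ^ 2 * ρ ^ 2 + 2 * τ * |q| := by
    rw [e1]
    have : 2 + τ ^ 2 * ρ ^ 2 - 2 * τ * q - 2 = τ ^ 2 * ρ ^ 2 + -(2 * τ * q) := by ring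
    rw [this]
    refine (abs_add_le _ _).trans ?_
    rw [abs_neg, abs_mul (2 * τ) q, abs_of_nonneg (by positivity : (0 : ℝ) ≤ τ ^ 2 * ρ ^ 2),
      abs_of_nonneg (by positivity : (0 : ℝ) ≤ 2 * τ)]
  have hB2 : |sv L τ p u - 2| ≤ τ ^ 2 * ρ ^ 2 + 2 * τ * |q| := by
    rw [e2]
    have : 2 + τ ^ 2 * ρ ^ 2 + 2 * τ * q - 2 = τ ^ 2 * ρ ^ 2 + (2 * τ * q) := by ring
    rw [this]
    refine (abs_add_le _ _).trans ?_
    rw [abs_mul (2 * τ) q, abs_of_nonneg (by positivity : (0 : ℝ) ≤ τ ^ 2 * ρ ^ 2),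
      abs_of_nonneg (by positivity : (0 : ℝ) ≤ 2 * τ)]
  have herr := Th_err ⟪p.1 + p.2, u⟫ g1 g2 hB1 hB2
  have e3 : sv L (-τ) p u - sv L τ p u = -(4 * τ * q) := by rw [e1, e2]; ring
  rw [e3, abs_neg, abs_mul, abs_of_nonneg (by positivity : (0 : ℝ) ≤ 4 * τ)] at herr
  have hmin := min_bound (q := q) hτ (norm_nonneg (actT (Hm L p) u)) hK
  rw [← hρ] at hmin
  have e4 : gs (⟪u, p.1⟫, ⟪u, p.2⟫) = -q * qd ⟪p.1 + p.2, u⟫ 2 := by
    unfold gs
    simp only
    rw [inner_add_left, real_inner_comm u, real_inner_comm u]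
  rw [e4]
  have h5 := (abs_le.1 herr).1
  have h6 : 4 * τ * |q| * min 1 (τ ^ 2 * ρ ^ 2 + 2 * τ * |q|) ≤
      4 * τ * (K * τ * ρ + q ^ 2 / K + 2 * τ * q ^ 2) := by
    rw [mul_assoc]
    exact mul_le_mul_of_nonneg_left hmin (by positivity)
  nlinarith

lemma norm_actT_le (B : Vn n) (v : En n) : ‖actT B v‖ ≤ ‖B‖ * ‖v‖ := by
  have h : ‖actT B v‖ ^ 2 ≤ (‖B‖ * ‖v‖) * ‖actT B v‖ := by
    rw [← real_inner_self_eq_norm_sq, ← inner_act]
    calc ⟪v, act B (actT B v)⟫ ≤ ‖v‖ * ‖act B (actT B v)‖ := real_inner_le_norm _ _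
      _ ≤ ‖v‖ * (‖B‖ * ‖actT B v‖) := by gcongr; exact norm_act_le _ _
      _ = _ := by ring
  rcases (norm_nonneg (actT B v)).eq_or_lt with h0 | h0
  · rw [← h0]; positivity
  · rw [sq] at h
    exact le_of_mul_le_mul_right h h0

/-- expected norm of the random matrix at a vector -/
noncomputable def Rv (L : Submodule ℝ (Vn n)) (x : En n) : ℝ :=
  ∫ p, ‖actT (Hm L p) x‖ ∂(gm2 n)

lemma actT_integrable (L : Submodule ℝ (Vn n)) (x : En n) :
    Integrable (fun p => ‖actT (Hm L p) x‖) (gm2 n) := by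
  refine ((wt_integrable (n := n) 1).mul_const ‖x‖).mono' ?_ (Eventually.of_forall fun p => ?_)
  · exact (actT_continuous.comp
      ((Hm_continuous L).prodMk continuous_const)).norm.aestronglyMeasurable
  · rw [norm_norm]
    refine (norm_actT_le _ _).trans ?_
    gcongr
    exact norm_Hm_le_wt L p

lemma pair_sq_integrable (u : En n) :
    Integrable (fun p : En n × En n => (⟪u, p.1⟫ * ⟪u, p.2⟫) ^ 2) (gm2 n) := by
  have := (inner_pow_integrable u 2).mul_prod (inner_pow_integrable u 2)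
  simpa only [mul_pow] using this

lemma gs_pair_integrable (u : En n) :
    Integrable (fun p : En n × En n => gs (⟪u, p.1⟫, ⟪u, p.2⟫)) (gm2 n) := by
  have h1 := (inner_pow_integrable u 1).abs.mul_prod (inner_pow_integrable u 1).abs
  refine h1.mono' ?_ (Eventually.of_forall fun p => ?_)
  · exact (gs_continuous.comp (by fun_prop)).aestronglyMeasurable
  · rw [Real.norm_eq_abs]
    simpa using gs_abs_le (⟪u, p.1⟫, ⟪u, p.2⟫)

lemma signal_unit {L : Submodule ℝ (Vn n)} {u : En n} (hu : tens u u ∈ L) (h1 : ‖u‖ = 1)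
    {τ K : ℝ} (hτ : 0 ≤ τ) (hK : 0 < K) :
    4 * τ * c1 - 4 * τ / K - 8 * τ ^ 2 - 4 * K * τ ^ 2 * Rv L u ≤
      Ev L (-τ) u - Ev L τ u := by
  rw [Ev_sub]
  have h := integral_mono (μ := gm2 n)
    (f := fun p => 4 * τ * gs (⟪u, p.1⟫, ⟪u, p.2⟫) - 4 * τ * (K * τ * ‖actT (Hm L p) u‖ +
      (⟪u, p.1⟫ * ⟪u, p.2⟫) ^ 2 / K + 2 * τ * (⟪u, p.1⟫ * ⟪u, p.2⟫) ^ 2)) ?_
    ((Th_sv_integrable L (-τ) u).sub (Th_sv_integrable L τ u))
    (fun p => signal_pointwise hu h1 hτ hK p)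
  swap
  · exact ((gs_pair_integrable u).const_mul _).sub
      ((((actT_integrable L u).const_mul _).add ((pair_sq_integrable u).div_const K)).add
        ((pair_sq_integrable u).const_mul (2 * τ)) |>.const_mul _)
  refine le_trans (le_of_eq ?_) h
  have i1 := (gs_pair_integrable u).const_mul (4 * τ)
  have i2 := (actT_integrable L u).const_mul (K * τ)
  have i3 := (pair_sq_integrable u).div_const K
  have i4 := (pair_sq_integrable u).const_mul (2 * τ)
  have i23 : Integrable (fun p : En n × En n => K * τ * ‖actT (Hm L p) u‖ +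
      (⟪u, p.1⟫ * ⟪u, p.2⟫) ^ 2 / K) (gm2 n) := i2.add i3
  have i234 : Integrable (fun p : En n × En n => K * τ * ‖actT (Hm L p) u‖ +
      (⟪u, p.1⟫ * ⟪u, p.2⟫) ^ 2 / K + 2 * τ * (⟪u, p.1⟫ * ⟪u, p.2⟫) ^ 2) (gm2 n) := i23.add i4
  rw [integral_sub i1 (i234.const_mul _), integral_const_mul, integral_const_mul,
    integral_add i23 i4, integral_add i2 i3, integral_const_mul, integral_const_mul,
    integral_div, integral_pair_sq u h1, integral_pair u h1 gs gs_continuous]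
  change _ = 4 * τ * c1 - 4 * τ * (K * τ * Rv L u + 1 / K + 2 * τ * 1)
  ring

lemma Ev_smul (L : Submodule ℝ (Vn n)) (σ c : ℝ) (v : En n) :
    Ev L σ (c • v) = |c| * Ev L σ v := by
  unfold Ev
  rw [← integral_const_mul]
  congr 1
  ext x
  rw [inner_smul_right, abs_mul]

lemma actT_smul (B : Vn n) (c : ℝ) (v : En n) : actT B (c • v) = c • actT B v := by
  ext j
  simp only [actT_apply, PiLp.smul_apply, smul_eq_mul, Finset.mul_sum]
  apply Finset.sum_congr rfl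
  intro i _
  ring

lemma Rv_smul (L : Submodule ℝ (Vn n)) (c : ℝ) (v : En n) : Rv L (c • v) = |c| * Rv L v := by
  unfold Rv
  rw [← integral_const_mul]
  congr 1
  ext x
  rw [actT_smul, norm_smul, Real.norm_eq_abs]

lemma tens_smul (c : ℝ) (v : En n) : tens (c • v) (c • v) = (c * c) • tens v v := by
  ext p
  simp only [tens_apply, PiLp.smul_apply, smul_eq_mul]
  ring

lemma signal_vec {L : Submodule ℝ (Vn n)} {x : En n} (hx : tens x x ∈ L)
    {τ K : ℝ} (hτ : 0 ≤ τ) (hK : 0 < K) :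
    ‖x‖ * (4 * τ * c1 - 4 * τ / K - 8 * τ ^ 2) - 4 * K * τ ^ 2 * Rv L x ≤
      Ev L (-τ) x - Ev L τ x := by
  rcases eq_or_ne x 0 with h0 | h0
  · have e1 := Ev_smul L (-τ) 0 x
    have e2 := Ev_smul L τ 0 x
    have e3 := Rv_smul L 0 x
    rw [h0] at e1 e2 e3 ⊢
    simp only [smul_zero, abs_zero, zero_mul] at e1 e2 e3
    rw [e1, e2, e3]
    simp
  · have hn : 0 < ‖x‖ := norm_pos_iff.2 h0
    set u : En n := ‖x‖⁻¹ • x with hu
    have hxu : x = ‖x‖ • u := by rw [hu, smul_smul, mul_inv_cancel₀ hn.ne', one_smul]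
    have h1 : ‖u‖ = 1 := by rw [hu, norm_smul, norm_inv, norm_norm, inv_mul_cancel₀ hn.ne']
    have hmem : tens u u ∈ L := by
      rw [hu, tens_smul]; exact L.smul_mem _ hx
    have h := signal_unit hmem h1 hτ hK
    have e1 : Ev L (-τ) x = ‖x‖ * Ev L (-τ) u := by
      conv_lhs => rw [hxu]
      rw [Ev_smul, abs_norm]
    have e2 : Ev L τ x = ‖x‖ * Ev L τ u := by
      conv_lhs => rw [hxu]
      rw [Ev_smul, abs_norm]
    have e3 : Rv L x = ‖x‖ * Rv L u := by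
      conv_lhs => rw [hxu]
      rw [Rv_smul, abs_norm]
    rw [e1, e2, e3]
    have := mul_le_mul_of_nonneg_left h hn.le
    nlinarith

end Pool.Agent.Helper61.Zono
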