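import Pool.Agent.Helper61.Zono.Gauss

/-! Rank one tensors, orthogonal projections and Gaussian moments. -/

open MeasureTheory ProbabilityTheory Real Filter Topology
open scoped NNReal RealInnerProductSpace

namespace Pool.Agent.Helper61.Zono

section wick

variable {E : Type*} [NormedAddCommGroup E] [InnerProductSpace ℝ E] [FiniteDimensional ℝ E]
  [MeasurableSpace E] [BorelSpace E]

lemma inner_pow_integrable (v : E) (k : ℕ) :
    Integrable (fun z : E => ⟪v, z⟫ ^ k) (stdGaussian E) := by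
  refine ((norm_pow_integrable (E := E) k).const_mul (‖v‖ ^ k)).mono' (by fun_prop)
    (Eventually.of_forall fun z => ?_)
  rw [norm_pow, ← mul_pow]
  exact pow_le_pow_left₀ (norm_nonneg _) (norm_inner_le_norm v z) k

lemma wick_four (u v w x : E) :
    ∫ z, ⟪u, z⟫ * ⟪v, z⟫ * (⟪w, z⟫ * ⟪x, z⟫) ∂(stdGaussian E) =
      ⟪u, v⟫ * ⟪w, x⟫ + ⟪u, w⟫ * ⟪v, x⟫ + ⟪u, x⟫ * ⟪v, w⟫ := by
  have key : ∀ z : E, ⟪u, z⟫ * ⟪v, z⟫ * (⟪w, z⟫ * ⟪x, z⟫) =
      (1 / 192) * (⟪u + v + w + x, z⟫ ^ 4 - ⟪u + v + w - x, z⟫ ^ 4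
        - ⟪u + v - w + x, z⟫ ^ 4 + ⟪u + v - w - x, z⟫ ^ 4
        - ⟪u - v + w + x, z⟫ ^ 4 + ⟪u - v + w - x, z⟫ ^ 4
        + ⟪u - v - w + x, z⟫ ^ 4 - ⟪u - v - w - x, z⟫ ^ 4) := by
    intro z
    simp only [inner_add_left, inner_sub_left]
    ring
  simp_rw [key]
  rw [integral_const_mul]
  have hi := fun v : E => inner_pow_integrable v 4
  rw [integral_sub, integral_add, integral_add, integral_sub, integral_add, integral_sub,
    integral_sub]
  · simp only [integral_inner_four]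
    have hn : ∀ y : E, ‖y‖ ^ 4 = ⟪y, y⟫ ^ 2 := by
      intro y; rw [real_inner_self_eq_norm_sq]; ring
    simp only [hn, inner_add_left, inner_sub_left, inner_add_right, inner_sub_right]
    rw [real_inner_comm u v, real_inner_comm u w, real_inner_comm u x, real_inner_comm v w,
      real_inner_comm v x, real_inner_comm w x]
    ring
  all_goals first | exact hi _ | skip
  all_goals
    repeat first | exact hi _ | apply Integrable.sub | apply Integrable.add

end wick

variable {n : ℕ}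

/-- Euclidean space -/
abbrev En (n : ℕ) := EuclideanSpace ℝ (Fin n)
/-- matrices with the Frobenius norm -/
abbrev Vn (n : ℕ) := EuclideanSpace ℝ (Fin n × Fin n)

/-- the rank one matrix `a b^T` -/
noncomputable def tens (a b : En n) : Vn n := WithLp.toLp 2 (fun p => a p.1 * b p.2)

/-- the action of a matrix -/
noncomputable def act (B : Vn n) (z : En n) : En n := WithLp.toLp 2 (fun i => ∑ j, B (i, j) * z j)

/-- the action of the transpose -/
noncomputable def actT (B : Vn n) (v : En n) : En n :=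
  WithLp.toLp 2 (fun j => ∑ i, B (i, j) * v i)

@[simp] lemma tens_apply (a b : En n) (p : Fin n × Fin n) : tens a b p = a p.1 * b p.2 := rfl
@[simp] lemma act_apply (B : Vn n) (z : En n) (i : Fin n) : act B z i = ∑ j, B (i, j) * z j := rfl
@[simp] lemma actT_apply (B : Vn n) (z : En n) (j : Fin n) :
    actT B z j = ∑ i, B (i, j) * z i := rfl

lemma inner_tens (B : Vn n) (a b : En n) : ⟪B, tens a b⟫ = ⟪a, act B b⟫ := by
  simp only [PiLp.inner_apply, tens_apply, act_apply, RCLike.inner_apply, conj_trivial]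
  rw [Fintype.sum_prod_type]
  apply Finset.sum_congr rfl
  intro i _
  rw [Finset.sum_mul]
  apply Finset.sum_congr rfl
  intro j _
  ring

lemma inner_act (B : Vn n) (a b : En n) : ⟪a, act B b⟫ = ⟪actT B a, b⟫ := by
  simp only [PiLp.inner_apply, actT_apply, act_apply, RCLike.inner_apply, conj_trivial]
  simp only [Finset.sum_mul, Finset.mul_sum]
  rw [Finset.sum_comm]
  apply Finset.sum_congr rfl
  intro i _
  apply Finset.sum_congr rfl
  intro j _
  ring

lemma inner_tens_tens (a b c d : En n) : ⟪tens a b, tens c d⟫ = ⟪a, c⟫ * ⟪b, d⟫ := by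
  simp only [PiLp.inner_apply, tens_apply, RCLike.inner_apply, conj_trivial]
  rw [Fintype.sum_prod_type, Finset.sum_mul_sum]
  apply Finset.sum_congr rfl
  intro i _
  apply Finset.sum_congr rfl
  intro j _
  ring

lemma norm_tens (a b : En n) : ‖tens a b‖ = ‖a‖ * ‖b‖ := by
  have h := inner_tens_tens a b a b
  rw [real_inner_self_eq_norm_sq, real_inner_self_eq_norm_sq, real_inner_self_eq_norm_sq,
    ← mul_pow] at h
  exact (pow_left_inj₀ (norm_nonneg _) (by positivity) (by norm_num)).1 h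

/-- rows -/
noncomputable def row (B : Vn n) (i : Fin n) : En n := WithLp.toLp 2 (fun j => B (i, j))

lemma act_eq_row (B : Vn n) (z : En n) (i : Fin n) : act B z i = ⟪row B i, z⟫ := by
  simp only [PiLp.inner_apply, act_apply, row, RCLike.inner_apply, conj_trivial]
  apply Finset.sum_congr rfl
  intro j _
  ring

lemma norm_act_sq (B : Vn n) (z : En n) : ‖act B z‖ ^ 2 = ∑ i, ⟪row B i, z⟫ ^ 2 := by
  rw [EuclideanSpace.real_norm_sq_eq]
  simp only [act_eq_row]

lemma sum_row_sq (B : Vn n) : ∑ i, ‖row B i‖ ^ 2 = ‖B‖ ^ 2 := by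
  rw [EuclideanSpace.real_norm_sq_eq, Fintype.sum_prod_type]
  apply Finset.sum_congr rfl
  intro i _
  rw [EuclideanSpace.real_norm_sq_eq]
  rfl

lemma norm_act_le (B : Vn n) (z : En n) : ‖act B z‖ ≤ ‖B‖ * ‖z‖ := by
  apply le_of_sq_le_sq _ (by positivity)
  rw [norm_act_sq, mul_pow, ← sum_row_sq, Finset.sum_mul]
  apply Finset.sum_le_sum
  intro i _
  rw [← mul_pow]
  apply sq_le_sq'
  · have := abs_real_inner_le_norm (row B i) z
    linarith [neg_abs_le ⟪row B i, z⟫]
  · exact real_inner_le_norm _ _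

lemma integral_norm_act_sq (B : Vn n) :
    ∫ z, ‖act B z‖ ^ 2 ∂(stdGaussian (En n)) = ‖B‖ ^ 2 := by
  simp only [norm_act_sq]
  rw [integral_finsetSum _ (fun i _ => inner_pow_integrable _ 2)]
  simp only [integral_inner_sq]
  exact sum_row_sq B

lemma integral_inner_tens_sq (B : Vn n) :
    ∫ b, (∫ a, ⟪B, tens a b⟫ ^ 2 ∂(stdGaussian (En n))) ∂(stdGaussian (En n)) = ‖B‖ ^ 2 := by
  simp only [inner_tens, real_inner_comm (act B _), integral_inner_sq]
  exact integral_norm_act_sq B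

/-- the identity matrix -/
noncomputable def idt (n : ℕ) : Vn n := WithLp.toLp 2 (fun p => if p.1 = p.2 then 1 else 0)

lemma norm_idt_sq : ‖idt n‖ ^ 2 = n := by
  rw [EuclideanSpace.real_norm_sq_eq, Fintype.sum_prod_type]
  simp [idt]

/-- basis vector -/
noncomputable def bv (i : Fin n) : En n := EuclideanSpace.single i 1

lemma inner_bv (i : Fin n) (z : En n) : ⟪bv i, z⟫ = z i := by
  simp [bv, EuclideanSpace.inner_single_left]

lemma inner_bv_bv (i j : Fin n) : ⟪bv i, bv j⟫ = if i = j then (1 : ℝ) else 0 := by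
  rw [inner_bv]
  simp [bv, PiLp.single_apply]

lemma integral_diag_sq (B : Vn n) :
    ∫ z, ⟪B, tens z z⟫ ^ 2 ∂(stdGaussian (En n)) ≤ 2 * ‖B‖ ^ 2 + ⟪B, idt n⟫ ^ 2 := by
  have e1 : ∀ z : En n, ⟪B, tens z z⟫ ^ 2 = ∑ p, ∑ q, (B p * B q) *
      (⟪bv p.1, z⟫ * ⟪bv p.2, z⟫ * (⟪bv q.1, z⟫ * ⟪bv q.2, z⟫)) := by
    intro z
    simp only [inner_bv]
    simp only [PiLp.inner_apply, tens_apply, RCLike.inner_apply, conj_trivial]
    rw [sq, Finset.sum_mul_sum]
    apply Finset.sum_congr rfl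
    intro p _
    apply Finset.sum_congr rfl
    intro q _
    ring
  have hint : ∀ p q : Fin n × Fin n, Integrable (fun z : En n => (B p * B q) *
      (⟪bv p.1, z⟫ * ⟪bv p.2, z⟫ * (⟪bv q.1, z⟫ * ⟪bv q.2, z⟫))) (stdGaussian (En n)) := by
    intro p q
    apply Integrable.const_mul
    refine (norm_pow_integrable (E := En n) 4).mono' (by fun_prop)
      (Eventually.of_forall fun z => ?_)
    have hb : ∀ i : Fin n, |⟪bv i, z⟫| ≤ ‖z‖ := by
      intro i
      have := abs_real_inner_le_norm (bv i) z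
      simpa [bv] using this
    rw [Real.norm_eq_abs, abs_mul, abs_mul, abs_mul]
    calc |⟪bv p.1, z⟫| * |⟪bv p.2, z⟫| * (|⟪bv q.1, z⟫| * |⟪bv q.2, z⟫|)
        ≤ ‖z‖ * ‖z‖ * (‖z‖ * ‖z‖) := by
          gcongr <;> exact hb _
      _ = ‖z‖ ^ 4 := by ring
  simp_rw [e1]
  rw [integral_finsetSum _ (fun p _ => integrable_finsetSum _ (fun q _ => hint p q))]
  have e2 : ∀ p : Fin n × Fin n, ∫ z, ∑ q, (B p * B q) *
      (⟪bv p.1, z⟫ * ⟪bv p.2, z⟫ * (⟪bv q.1, z⟫ * ⟪bv q.2, z⟫)) ∂(stdGaussian (En n)) =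
      ∑ q : Fin n × Fin n, (B p * B q) * ((if p.1 = p.2 then (1 : ℝ) else 0) *
        (if q.1 = q.2 then (1 : ℝ) else 0) + (if p.1 = q.1 then (1 : ℝ) else 0) *
        (if p.2 = q.2 then (1 : ℝ) else 0) + (if p.1 = q.2 then (1 : ℝ) else 0) *
        (if p.2 = q.1 then (1 : ℝ) else 0)) := by
    intro p
    rw [integral_finsetSum _ (fun q _ => hint p q)]
    apply Finset.sum_congr rfl
    intro q _
    rw [integral_const_mul, wick_four]
    simp only [inner_bv_bv]
  simp_rw [e2]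
  have e3 : ∑ p : Fin n × Fin n, ∑ q : Fin n × Fin n, (B p * B q) *
        ((if p.1 = p.2 then (1 : ℝ) else 0) *
        (if q.1 = q.2 then (1 : ℝ) else 0) + (if p.1 = q.1 then (1 : ℝ) else 0) *
        (if p.2 = q.2 then (1 : ℝ) else 0) + (if p.1 = q.2 then (1 : ℝ) else 0) *
        (if p.2 = q.1 then (1 : ℝ) else 0)) =
      ⟪B, idt n⟫ ^ 2 + ∑ p, B p * B p + ∑ p : Fin n × Fin n, B p * B (p.2, p.1) := by
    simp only [mul_add, Finset.sum_add_distrib]
    congr 1
    · congr 1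
      · rw [sq, PiLp.inner_apply, Finset.sum_mul_sum]
        apply Finset.sum_congr rfl
        intro p _
        apply Finset.sum_congr rfl
        intro q _
        simp only [idt, RCLike.inner_apply, conj_trivial]
        ring
      · apply Finset.sum_congr rfl
        intro p _
        rw [Finset.sum_eq_single p]
        · simp
        · intro q _ hq
          by_cases h1 : p.1 = q.1
          · have h2 : p.2 ≠ q.2 := fun h => hq (Prod.ext h1.symm h.symm)
            simp [h2]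
          · simp [h1]
        · simp
    · apply Finset.sum_congr rfl
      intro p _
      rw [Finset.sum_eq_single (p.2, p.1)]
      · simp
      · intro q _ hq
        by_cases h1 : p.1 = q.2
        · have h2 : p.2 ≠ q.1 := fun h => hq (Prod.ext h.symm h1.symm)
          simp [h2]
        · simp [h1]
      · simp
  rw [e3]
  have e4 : ∑ p, B p * B p = ‖B‖ ^ 2 := by
    rw [EuclideanSpace.real_norm_sq_eq]
    simp [sq]
  have e5 : ∑ p : Fin n × Fin n, B (p.2, p.1) * B (p.2, p.1) = ‖B‖ ^ 2 := by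
    rw [← e4]
    exact Fintype.sum_equiv (Equiv.prodComm (Fin n) (Fin n)) _ _ (fun p => rfl)
  have e6 : ∑ p : Fin n × Fin n, B p * B (p.2, p.1) ≤ ‖B‖ ^ 2 := by
    have : ∑ p : Fin n × Fin n, B p * B (p.2, p.1) ≤
        ∑ p : Fin n × Fin n, (1 / 2 * (B p * B p) + 1 / 2 * (B (p.2, p.1) * B (p.2, p.1))) := by
      apply Finset.sum_le_sum
      intro p _
      nlinarith [sq_nonneg (B p - B (p.2, p.1))]
    rw [Finset.sum_add_distrib, ← Finset.mul_sum, ← Finset.mul_sum, e4, e5] at this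
    linarith
  rw [e4]
  linarith

/-- orthogonal projection onto a subspace of matrices -/
noncomputable def pr (L : Submodule ℝ (Vn n)) (B : Vn n) : Vn n := L.starProjection B

lemma pr_continuous (L : Submodule ℝ (Vn n)) : Continuous (pr L) :=
  L.starProjection.continuous

lemma inner_pr (L : Submodule ℝ (Vn n)) (B C : Vn n) : ⟪pr L B, C⟫ = ⟪B, pr L C⟫ :=
  Submodule.inner_starProjection_left_eq_right L B C

lemma pr_of_mem {L : Submodule ℝ (Vn n)} {B : Vn n} (h : B ∈ L) : pr L B = B :=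
  Submodule.starProjection_eq_self_iff.2 h

lemma norm_pr_le (L : Submodule ℝ (Vn n)) (B : Vn n) : ‖pr L B‖ ≤ ‖B‖ :=
  Submodule.norm_starProjection_apply_le L B

lemma norm_pr_sq (L : Submodule ℝ (Vn n)) (B : Vn n) :
    ‖pr L B‖ ^ 2 = ∑ k, ⟪((stdOrthonormalBasis ℝ L k : L) : Vn n), B⟫ ^ 2 := by
  have h1 : pr L B = ((L.orthogonalProjectionOnto B : L) : Vn n) := rfl
  have h2 : ‖pr L B‖ = ‖L.orthogonalProjectionOnto B‖ := by rw [h1]; simp
  rw [h2, ← (stdOrthonormalBasis ℝ L).sum_sq_inner_right]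
  apply Finset.sum_congr rfl
  intro k _
  congr 1
  rw [Submodule.coe_inner, ← h1, ← inner_pr, pr_of_mem (Subtype.mem _)]

lemma integral_pr_diag (L : Submodule ℝ (Vn n)) :
    ∫ z, ‖pr L (tens z z)‖ ^ 2 ∂(stdGaussian (En n)) ≤ 2 * Module.finrank ℝ L + n := by
  simp only [norm_pr_sq]
  have hint : ∀ B : Vn n, Integrable (fun z : En n => ⟪B, tens z z⟫ ^ 2)
      (stdGaussian (En n)) := by
    intro B
    refine ((norm_pow_integrable (E := En n) 4).const_mul (‖B‖ ^ 2)).mono'
      (Continuous.aestronglyMeasurable ?_)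
      (Eventually.of_forall fun z => ?_)
    · simp only [inner_tens]
      unfold act
      fun_prop
    · rw [Real.norm_eq_abs, abs_of_nonneg (sq_nonneg _)]
      have h := abs_real_inner_le_norm B (tens z z)
      rw [norm_tens] at h
      calc ⟪B, tens z z⟫ ^ 2 = |⟪B, tens z z⟫| ^ 2 := (sq_abs _).symm
        _ ≤ (‖B‖ * (‖z‖ * ‖z‖)) ^ 2 := pow_le_pow_left₀ (abs_nonneg _) h 2
        _ = _ := by ring
  rw [integral_finsetSum _ (fun k _ => hint _)]
  calc ∑ k, ∫ z, ⟪((stdOrthonormalBasis ℝ L k : L) : Vn n), tens z z⟫ ^ 2 ∂(stdGaussian (En n))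
      ≤ ∑ k, (2 * ‖((stdOrthonormalBasis ℝ L k : L) : Vn n)‖ ^ 2 +
          ⟪((stdOrthonormalBasis ℝ L k : L) : Vn n), idt n⟫ ^ 2) :=
        Finset.sum_le_sum fun k _ => integral_diag_sq _
    _ = 2 * Module.finrank ℝ L + ‖pr L (idt n)‖ ^ 2 := by
        rw [Finset.sum_add_distrib, ← norm_pr_sq]
        congr 1
        have h1 : ∀ k, ‖((stdOrthonormalBasis ℝ L k : L) : Vn n)‖ = 1 := fun k =>
          (stdOrthonormalBasis ℝ L).orthonormal.1 k
        simp only [h1]
        simp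
        ring
    _ ≤ 2 * Module.finrank ℝ L + n := by
        have := norm_pr_le L (idt n)
        have h2 : ‖pr L (idt n)‖ ^ 2 ≤ ‖idt n‖ ^ 2 := pow_le_pow_left₀ (norm_nonneg _) this 2
        rw [norm_idt_sq] at h2
        linarith

end Pool.Agent.Helper61.Zono
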