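import Pool.Agent.Helper61.Zono.Tens

/-! The two test vectors and the law of their scalar products. -/

open MeasureTheory ProbabilityTheory Real Filter Topology
open scoped NNReal RealInnerProductSpace

namespace Pool.Agent.Helper61.Zono

lemma sq_integral_le {Ω : Type*} [MeasurableSpace Ω] (μ : Measure Ω) [IsProbabilityMeasure μ]
    {f : Ω → ℝ} (hf : Integrable f μ) (hf2 : Integrable (fun x => f x ^ 2) μ) :
    (∫ x, f x ∂μ) ^ 2 ≤ ∫ x, f x ^ 2 ∂μ := by
  set c := ∫ x, f x ∂μ with hc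
  have h : 0 ≤ ∫ x, (f x - c) ^ 2 ∂μ := integral_nonneg fun x => sq_nonneg _
  have e : ∫ x, (f x - c) ^ 2 ∂μ = ∫ x, f x ^ 2 ∂μ - 2 * c * ∫ x, f x ∂μ + c ^ 2 := by
    have : ∀ x, (f x - c) ^ 2 = (f x ^ 2 - 2 * c * f x) + c ^ 2 := by intro x; ring
    simp_rw [this]
    have hs : Integrable (fun x => f x ^ 2 - 2 * c * f x) μ := hf2.sub (hf.const_mul _)
    rw [integral_add hs (integrable_const _),
      integral_sub hf2 (hf.const_mul _), integral_const_mul]
    simp
  rw [e, ← hc] at h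
  nlinarith

lemma integral_le_sqrt {Ω : Type*} [MeasurableSpace Ω] (μ : Measure Ω) [IsProbabilityMeasure μ]
    {f : Ω → ℝ} (hf : Integrable f μ) (hf2 : Integrable (fun x => f x ^ 2) μ) {A : ℝ}
    (hA : ∫ x, f x ^ 2 ∂μ ≤ A) : ∫ x, f x ∂μ ≤ √A :=
  Real.le_sqrt_of_sq_le ((sq_integral_le μ hf hf2).trans hA)

variable {n : ℕ}

/-- the standard Gaussian measure -/
noncomputable abbrev gm (n : ℕ) : Measure (En n) := stdGaussian (En n)
/-- pairs of independent standard Gaussian vectors -/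
noncomputable abbrev gm2 (n : ℕ) : Measure (En n × En n) := (gm n).prod (gm n)

/-- the random matrix -/
noncomputable def Hm (L : Submodule ℝ (Vn n)) (p : En n × En n) : Vn n := pr L (tens p.1 p.2)

/-- the test vector -/
noncomputable def Xv (L : Submodule ℝ (Vn n)) (σ : ℝ) (p w : En n × En n) : En n :=
  p.1 + p.2 + w.1 + w.2 + σ • act (Hm L p) w.1

lemma tens_continuous : Continuous (fun p : En n × En n => tens p.1 p.2) := by
  unfold tens; fun_prop

lemma act_continuous : Continuous (fun x : Vn n × En n => act x.1 x.2) := by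
  unfold act; fun_prop

lemma actT_continuous : Continuous (fun x : Vn n × En n => actT x.1 x.2) := by
  unfold actT; fun_prop

lemma Hm_continuous (L : Submodule ℝ (Vn n)) : Continuous (Hm L) :=
  (pr_continuous L).comp tens_continuous

lemma norm_Hm_le (L : Submodule ℝ (Vn n)) (p : En n × En n) : ‖Hm L p‖ ≤ ‖p.1‖ * ‖p.2‖ := by
  unfold Hm
  exact (norm_pr_le _ _).trans (norm_tens _ _).le

lemma Xv_continuous (L : Submodule ℝ (Vn n)) (σ : ℝ) :
    Continuous (fun x : (En n × En n) × (En n × En n) => Xv L σ x.1 x.2) := by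
  unfold Xv
  have h : Continuous (fun x : (En n × En n) × (En n × En n) => act (Hm L x.1) x.2.1) :=
    act_continuous.comp (((Hm_continuous L).comp continuous_fst).prodMk
      (continuous_fst.comp continuous_snd))
  fun_prop

/-- scalar product with the random matrix -/
noncomputable def qv (L : Submodule ℝ (Vn n)) (p : En n × En n) (v : En n) : ℝ :=
  ⟪Hm L p, tens v v⟫

/-- variance of the scalar product -/
noncomputable def sv (L : Submodule ℝ (Vn n)) (σ : ℝ) (p : En n × En n) (v : En n) : ℝ :=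
  ‖v + σ • actT (Hm L p) v‖ ^ 2 + ‖v‖ ^ 2

lemma sv_eq (L : Submodule ℝ (Vn n)) (σ : ℝ) (p : En n × En n) (v : En n) :
    sv L σ p v = 2 * ‖v‖ ^ 2 + σ ^ 2 * ‖actT (Hm L p) v‖ ^ 2 + 2 * σ * qv L p v := by
  unfold sv qv
  rw [norm_add_sq_real, norm_smul, inner_smul_right, inner_tens, inner_act, mul_pow,
    Real.norm_eq_abs, sq_abs, real_inner_comm v]
  ring

lemma inner_Xv (L : Submodule ℝ (Vn n)) (σ : ℝ) (p w : En n × En n) (v : En n) :
    ⟪Xv L σ p w, v⟫ = ⟪p.1 + p.2, v⟫ + ⟪v + σ • actT (Hm L p) v, w.1⟫ + ⟪v, w.2⟫ := by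
  unfold Xv
  simp only [inner_add_left, inner_smul_left, conj_trivial]
  rw [real_inner_comm v (act (Hm L p) w.1), inner_act, real_inner_comm v w.1,
    real_inner_comm v w.2]
  ring

lemma integral_inner_Xv (L : Submodule ℝ (Vn n)) (σ : ℝ) (p : En n × En n) (v : En n) :
    ∫ w, |⟪Xv L σ p w, v⟫| ∂(gm2 n) = Th ⟪p.1 + p.2, v⟫ (sv L σ p v) := by
  simp only [inner_Xv]
  exact integral_two _ _ _

/-- weight function -/
noncomputable def wt (k : ℕ) (x : En n × En n) : ℝ := (1 + ‖x.1‖) ^ k * (1 + ‖x.2‖) ^ k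

lemma one_add_norm_integrable (k : ℕ) :
    Integrable (fun z : En n => (1 + ‖z‖) ^ k) (gm n) := by
  have h := IsGaussian.memLp_id (stdGaussian (En n)) (k : ℕ) (by simp)
  have h1 : MemLp (fun z : En n => 1 + ‖z‖) (k : ℕ) (stdGaussian (En n)) :=
    (memLp_const (1 : ℝ)).add h.norm
  have h2 := h1.integrable_norm_pow'
  refine h2.congr (Eventually.of_forall fun z => ?_)
  simp only
  rw [Real.norm_of_nonneg (by positivity)]

lemma wt_integrable (k : ℕ) : Integrable (wt (n := n) k) (gm2 n) := by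
  unfold wt
  exact (one_add_norm_integrable k).mul_prod (one_add_norm_integrable k)

lemma wt_pos (k : ℕ) (x : En n × En n) : 0 < wt k x := by unfold wt; positivity

lemma one_le_wt (k : ℕ) (x : En n × En n) : 1 ≤ wt k x := by
  unfold wt
  have h1 : 1 ≤ (1 + ‖x.1‖) ^ k := one_le_pow₀ (by linarith [norm_nonneg x.1])
  have h2 : 1 ≤ (1 + ‖x.2‖) ^ k := one_le_pow₀ (by linarith [norm_nonneg x.2])
  nlinarith

lemma norm_Hm_le_wt (L : Submodule ℝ (Vn n)) (p : En n × En n) : ‖Hm L p‖ ≤ wt 1 p := by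
  refine (norm_Hm_le L p).trans ?_
  unfold wt
  nlinarith [norm_nonneg p.1, norm_nonneg p.2]

lemma wt_mul (j k : ℕ) (x : En n × En n) : wt j x * wt k x = wt (j + k) x := by
  unfold wt; ring

lemma norm_fst_le (x : En n × En n) : ‖x.1‖ ≤ wt 1 x := by
  unfold wt
  nlinarith [norm_nonneg x.1, norm_nonneg x.2]

lemma norm_snd_le (x : En n × En n) : ‖x.2‖ ≤ wt 1 x := by
  unfold wt
  nlinarith [norm_nonneg x.1, norm_nonneg x.2]

lemma norm_Xv_le (L : Submodule ℝ (Vn n)) (σ : ℝ) (p w : En n × En n) :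
    ‖Xv L σ p w‖ ≤ (4 + |σ|) * (wt 1 p * wt 1 w) := by
  have h1 := one_le_wt 1 p
  have h2 := one_le_wt 1 w
  have h3 := norm_fst_le p
  have h4 := norm_snd_le p
  have h5 := norm_fst_le w
  have h6 := norm_snd_le w
  have h7 := norm_Hm_le_wt L p
  have h8 : ‖act (Hm L p) w.1‖ ≤ wt 1 p * wt 1 w :=
    (norm_act_le _ _).trans (mul_le_mul h7 h5 (norm_nonneg _) (by linarith))
  unfold Xv
  calc ‖p.1 + p.2 + w.1 + w.2 + σ • act (Hm L p) w.1‖
      ≤ ‖p.1‖ + ‖p.2‖ + ‖w.1‖ + ‖w.2‖ + |σ| * ‖act (Hm L p) w.1‖ := by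
        refine (norm_add_le _ _).trans ?_
        rw [norm_smul, Real.norm_eq_abs]
        gcongr
        exact norm_add₄_le
    _ ≤ wt 1 p * wt 1 w + wt 1 p * wt 1 w + wt 1 p * wt 1 w + wt 1 p * wt 1 w
        + |σ| * (wt 1 p * wt 1 w) := by
        gcongr <;> nlinarith
    _ = _ := by ring

lemma norm_Xv_integrable (L : Submodule ℝ (Vn n)) (σ : ℝ) :
    Integrable (fun x : (En n × En n) × (En n × En n) => ‖Xv L σ x.1 x.2‖)
      ((gm2 n).prod (gm2 n)) := by
  refine (((wt_integrable (n := n) 1).mul_prod (wt_integrable (n := n) 1)).const_mul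
    (4 + |σ|)).mono' (Xv_continuous L σ).norm.aestronglyMeasurable
    (Eventually.of_forall fun x => ?_)
  rw [norm_norm]
  exact norm_Xv_le L σ x.1 x.2

lemma inner_Xv_integrable (L : Submodule ℝ (Vn n)) (σ : ℝ) (v : En n) :
    Integrable (fun x : (En n × En n) × (En n × En n) => |⟪Xv L σ x.1 x.2, v⟫|)
      ((gm2 n).prod (gm2 n)) := by
  refine ((norm_Xv_integrable L σ).mul_const ‖v‖).mono' ?_ (Eventually.of_forall fun x => ?_)
  · exact ((Xv_continuous L σ).inner continuous_const).abs.aestronglyMeasurable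
  · rw [Real.norm_eq_abs, abs_abs]
    exact abs_real_inner_le_norm _ _

/-- expected absolute value of the scalar product -/
noncomputable def Ev (L : Submodule ℝ (Vn n)) (σ : ℝ) (v : En n) : ℝ :=
  ∫ x : (En n × En n) × (En n × En n), |⟪Xv L σ x.1 x.2, v⟫| ∂((gm2 n).prod (gm2 n))

lemma Ev_eq (L : Submodule ℝ (Vn n)) (σ : ℝ) (v : En n) :
    Ev L σ v = ∫ p, Th ⟪p.1 + p.2, v⟫ (sv L σ p v) ∂(gm2 n) := by
  unfold Ev
  rw [integral_prod _ (inner_Xv_integrable L σ v)]
  simp only [integral_inner_Xv]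

lemma Th_sv_integrable (L : Submodule ℝ (Vn n)) (σ : ℝ) (v : En n) :
    Integrable (fun p => Th ⟪p.1 + p.2, v⟫ (sv L σ p v)) (gm2 n) := by
  have h := (inner_Xv_integrable L σ v).integral_prod_left
  simpa only [integral_inner_Xv] using h

/-- difference of the two expectations -/
lemma Ev_sub (L : Submodule ℝ (Vn n)) (σ τ : ℝ) (v : En n) :
    Ev L σ v - Ev L τ v = ∫ p, (Th ⟪p.1 + p.2, v⟫ (sv L σ p v) -
      Th ⟪p.1 + p.2, v⟫ (sv L τ p v)) ∂(gm2 n) := by
  rw [integral_sub (Th_sv_integrable L σ v) (Th_sv_integrable L τ v), Ev_eq, Ev_eq]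

end Pool.Agent.Helper61.Zono
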