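import Mathlib

/-! Expected absolute value of a real Gaussian as a function of its variance. -/

open MeasureTheory ProbabilityTheory Real Filter Topology
open scoped NNReal

namespace Pool.Agent.Helper61.Zono

/-- the standard normal density -/
noncomputable def ph (x : ℝ) : ℝ := (√(2 * π))⁻¹ * exp (-x ^ 2 / 2)

lemma ph_pos (x : ℝ) : 0 < ph x := by unfold ph; positivity

lemma ph_continuous : Continuous ph := by unfold ph; fun_prop

lemma const_le_one : (√(2 * π))⁻¹ ≤ 1 := by
  apply inv_le_one_of_one_le₀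
  rw [Real.one_le_sqrt]
  nlinarith [Real.pi_gt_three]

lemma ph_le_one (x : ℝ) : ph x ≤ 1 := by
  unfold ph
  have h1 := const_le_one
  have h2 : exp (-x ^ 2 / 2) ≤ 1 := by
    rw [Real.exp_le_one_iff]; nlinarith [sq_nonneg x]
  calc (√(2 * π))⁻¹ * exp (-x ^ 2 / 2) ≤ 1 * 1 := by
        apply mul_le_mul h1 h2 (exp_pos _).le zero_le_one
    _ = 1 := one_mul 1

lemma ph_neg (x : ℝ) : ph (-x) = ph x := by unfold ph; simp

lemma ph_hasDerivAt (x : ℝ) : HasDerivAt ph (-x * ph x) x := by
  unfold ph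
  have h : HasDerivAt (fun x : ℝ => -x ^ 2 / 2) (-x) x := by
    have := ((hasDerivAt_id x).pow 2).neg.div_const 2
    refine this.congr_deriv ?_
    simp; ring
  exact ((h.exp).const_mul (√(2 * π))⁻¹).congr_deriv (by ring)

lemma pdf_eq_ph (x : ℝ) : gaussianPDFReal 0 1 x = ph x := by
  unfold ph
  rw [gaussianPDFReal_def]
  simp

lemma ph_integrable : Integrable ph := by
  have h := integrable_gaussianPDFReal 0 1
  have e : gaussianPDFReal 0 1 = ph := funext pdf_eq_ph
  rwa [e] at h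

lemma ph_integral : ∫ x, ph x = 1 := by
  have h := integral_gaussianPDFReal_eq_one 0 (v := 1) one_ne_zero
  have e : gaussianPDFReal 0 1 = ph := funext pdf_eq_ph
  rwa [e] at h

lemma id_ph_integrable : Integrable (fun x => x * ph x) := by
  have h := (integrable_mul_exp_neg_mul_sq (b := 1 / 2) (by norm_num)).const_mul (√(2 * π))⁻¹
  refine h.congr (Eventually.of_forall fun x => ?_)
  simp only [ph]
  have : -(1 / 2 : ℝ) * x ^ 2 = -x ^ 2 / 2 := by ring
  rw [this]; ring

lemma ph_tendsto_top : Tendsto ph atTop (𝓝 0) := by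
  have h : Tendsto (fun x : ℝ => -x ^ 2 / 2) atTop atBot := by
    have h1 : Tendsto (fun x : ℝ => x ^ 2) atTop atTop := tendsto_pow_atTop (by norm_num)
    have h2 := (h1.const_mul_atTop (r := (1 / 2 : ℝ)) (by norm_num))
    have h3 := tendsto_neg_atTop_atBot.comp h2
    refine h3.congr fun x => ?_
    simp only [Function.comp]; ring
  have := (Real.tendsto_exp_atBot.comp h).const_mul (√(2 * π))⁻¹
  rw [mul_zero] at this
  exact this

lemma ph_tendsto_bot : Tendsto ph atBot (𝓝 0) := by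
  have h := ph_tendsto_top.comp tendsto_neg_atBot_atTop
  refine h.congr fun x => ?_
  simp [ph_neg]

lemma integral_Ioi_id_ph (c : ℝ) : ∫ x in Set.Ioi c, x * ph x = ph c := by
  have h := integral_Ioi_of_hasDerivAt_of_tendsto' (f := fun x => -ph x) (f' := fun x => x * ph x)
    (a := c) (m := 0) (fun x _ => ((ph_hasDerivAt x).neg).congr_deriv (by ring))
    id_ph_integrable.integrableOn (by simpa using ph_tendsto_top.neg)
  rw [h]; ring

lemma integral_Iic_id_ph (c : ℝ) : ∫ x in Set.Iic c, x * ph x = -ph c := by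
  have h := integral_Iic_of_hasDerivAt_of_tendsto' (f := fun x => -ph x) (f' := fun x => x * ph x)
    (a := c) (m := 0) (fun x _ => ((ph_hasDerivAt x).neg).congr_deriv (by ring))
    id_ph_integrable.integrableOn (by simpa using ph_tendsto_bot.neg)
  rw [h]; ring

/-- the standard normal distribution function -/
noncomputable def Ph (c : ℝ) : ℝ := ∫ x in Set.Iic c, ph x

lemma Ph_hasDerivAt (c : ℝ) : HasDerivAt Ph (ph c) c := by
  have h : ∀ y, Ph y = Ph 0 + ∫ x in (0 : ℝ)..y, ph x := by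
    intro y
    have := intervalIntegral.integral_Iic_sub_Iic (f := ph) (μ := volume) (a := 0) (b := y)
      ph_integrable.integrableOn ph_integrable.integrableOn
    unfold Ph
    rw [← this]; ring
  have h2 : HasDerivAt (fun y => Ph 0 + ∫ x in (0 : ℝ)..y, ph x) (ph c) c := by
    have := intervalIntegral.integral_hasDerivAt_right (f := ph) (a := 0) (b := c)
      (ph_integrable.intervalIntegrable) (ph_continuous.stronglyMeasurableAtFilter _ _)
      ph_continuous.continuousAt
    exact this.const_add _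
  exact h2.congr_of_eventuallyEq (Eventually.of_forall h)

lemma Ph_compl (c : ℝ) : ∫ x in Set.Ioi c, ph x = 1 - Ph c := by
  have h := integral_add_compl (μ := volume) (f := ph) (s := Set.Iic c) measurableSet_Iic
    ph_integrable
  rw [Set.compl_Iic, ph_integral] at h
  unfold Ph; linarith

lemma integral_g1 (f : ℝ → ℝ) : ∫ x, f x ∂(gaussianReal 0 1) = ∫ x, f x * ph x := by
  rw [integral_gaussianReal_eq_integral_smul one_ne_zero]
  apply integral_congr_ae
  refine Eventually.of_forall fun x => ?_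
  simp only [smul_eq_mul, pdf_eq_ph]; ring

/-- `E|g - c|` -/
noncomputable def Jf (c : ℝ) : ℝ := 2 * ph c + c * (2 * Ph c - 1)

lemma integral_abs_sub (c : ℝ) : ∫ x, |x - c| ∂(gaussianReal 0 1) = Jf c := by
  rw [integral_g1]
  have hi : Integrable (fun x => |x - c| * ph x) := by
    have h1 : Integrable (fun x => |x * ph x - c * ph x|) :=
      (id_ph_integrable.sub (ph_integrable.const_mul c)).abs
    refine h1.congr (Eventually.of_forall fun x => ?_)
    simp only
    rw [← sub_mul, abs_mul, abs_of_pos (ph_pos x)]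
  rw [← integral_add_compl (μ := volume) (s := Set.Iic c) measurableSet_Iic hi, Set.compl_Iic]
  have e1 : ∫ x in Set.Iic c, |x - c| * ph x = ∫ x in Set.Iic c, (c * ph x - x * ph x) := by
    apply setIntegral_congr_fun measurableSet_Iic
    intro x hx
    simp only [Set.mem_Iic] at hx
    simp only
    rw [abs_of_nonpos (by linarith)]; ring
  have e2 : ∫ x in Set.Ioi c, |x - c| * ph x = ∫ x in Set.Ioi c, (x * ph x - c * ph x) := by
    apply setIntegral_congr_fun measurableSet_Ioi
    intro x hx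
    simp only [Set.mem_Ioi] at hx
    simp only
    rw [abs_of_pos (by linarith)]; ring
  rw [e1, e2, integral_sub (ph_integrable.const_mul c).integrableOn id_ph_integrable.integrableOn,
    integral_sub id_ph_integrable.integrableOn (ph_integrable.const_mul c).integrableOn,
    integral_Ioi_id_ph, integral_Iic_id_ph, integral_const_mul, integral_const_mul, Ph_compl]
  unfold Jf
  change c * Ph c - -ph c + (ph c - c * (1 - Ph c)) = _
  ring

lemma Jf_hasDerivAt (c : ℝ) : HasDerivAt Jf (2 * Ph c - 1) c := by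
  have h1 := (ph_hasDerivAt c).const_mul 2
  have h2 := (hasDerivAt_id c).mul (((Ph_hasDerivAt c).const_mul 2).sub_const 1)
  refine (h1.add h2).congr_deriv ?_
  simp only [id]
  ring

/-- `E|m + sqrt s g|` -/
noncomputable def Th (m s : ℝ) : ℝ := ∫ x, |m + √s * x| ∂(gaussianReal 0 1)

/-- the density at `m` of the centred normal law of variance `s` -/
noncomputable def qd (m s : ℝ) : ℝ := (√s)⁻¹ * ph (m / √s)

lemma Th_eq (m : ℝ) {s : ℝ} (hs : 0 < s) : Th m s = √s * Jf (-(m / √s)) := by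
  unfold Th
  rw [← integral_abs_sub, ← integral_const_mul]
  have h : 0 < √s := Real.sqrt_pos.2 hs
  apply integral_congr_ae
  refine Eventually.of_forall fun x => ?_
  simp only
  nth_rewrite 2 [← abs_of_pos h]
  rw [← abs_mul]
  congr 1
  field_simp
  ring

lemma Th_hasDerivAt (m : ℝ) {s : ℝ} (hs : 0 < s) : HasDerivAt (Th m) (qd m s) s := by
  have h : 0 < √s := Real.sqrt_pos.2 hs
  have h1 : HasDerivAt (fun t => √t) (1 / (2 * √s)) s := Real.hasDerivAt_sqrt hs.ne'
  have h2 : HasDerivAt (fun t => -(m / √t)) (-(-(m * (1 / (2 * √s))) / √s ^ 2)) s := by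
    have := (((hasDerivAt_const s m).div h1 h.ne').neg)
    refine this.congr_deriv ?_
    ring
  have h3 := (Jf_hasDerivAt (-(m / √s))).comp s h2
  have h4 := h1.mul h3
  have h5 : HasDerivAt (fun t => √t * Jf (-(m / √t))) (qd m s) s := by
    refine h4.congr_deriv ?_
    simp only [Function.comp]
    unfold qd Jf
    rw [ph_neg]
    field_simp
    ring
  refine h5.congr_of_eventuallyEq ?_
  filter_upwards [lt_mem_nhds hs] with t ht
  exact Th_eq m ht

lemma qd_nonneg (m s : ℝ) : 0 ≤ qd m s := by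
  unfold qd
  exact mul_nonneg (by positivity) (ph_pos _).le

lemma qd_le (m s : ℝ) : qd m s ≤ (√s)⁻¹ := by
  unfold qd
  have := ph_le_one (m / √s)
  have h : 0 ≤ (√s)⁻¹ := by positivity
  nlinarith

lemma qd_le_one (m : ℝ) {s : ℝ} (hs : 1 ≤ s) : qd m s ≤ 1 := by
  refine (qd_le m s).trans (inv_le_one_of_one_le₀ ?_)
  rwa [Real.one_le_sqrt]

lemma aux_exp_bound {x : ℝ} (hx : 0 ≤ x) : |x - 1 / 2| * exp (-x) ≤ 1 := by
  have h1 : exp (-x) ≤ 1 := by rw [Real.exp_le_one_iff]; linarith
  have h2 : x * exp (-x) ≤ 1 := by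
    have := Real.add_one_le_exp x
    rw [Real.exp_neg, ← div_eq_mul_inv, div_le_one (exp_pos x)]
    linarith
  have h3 := exp_pos (-x)
  rcases abs_cases (x - 1 / 2) with ⟨h, _⟩ | ⟨h, _⟩ <;> rw [h] <;> nlinarith

lemma qd_hasDerivAt (m : ℝ) {s : ℝ} (hs : 0 < s) :
    HasDerivAt (qd m) ((√s)⁻¹ * s⁻¹ * ph (m / √s) * (m ^ 2 / (2 * s) - 1 / 2)) s := by
  have h : 0 < √s := Real.sqrt_pos.2 hs
  have h1 : HasDerivAt (fun t => √t) (1 / (2 * √s)) s := Real.hasDerivAt_sqrt hs.ne'
  have h0 : HasDerivAt (fun t => (√t)⁻¹) (-(1 / (2 * √s)) / √s ^ 2) s := h1.inv h.ne'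
  have h2 : HasDerivAt (fun t => m / √t) (-(m * (1 / (2 * √s))) / √s ^ 2) s := by
    have := ((hasDerivAt_const s m).div h1 h.ne')
    refine this.congr_deriv ?_
    ring
  have h3 := (ph_hasDerivAt (m / √s)).comp s h2
  have h4 := h0.mul h3
  refine h4.congr_deriv ?_
  simp only [Function.comp]
  have e : √s ^ 2 = s := Real.sq_sqrt hs.le
  have e' : s = √s ^ 2 := e.symm
  set r := √s with hr
  rw [e']
  field_simp
  ring

lemma qd_deriv_bound (m : ℝ) {s : ℝ} (hs : 1 ≤ s) :
    |(√s)⁻¹ * s⁻¹ * ph (m / √s) * (m ^ 2 / (2 * s) - 1 / 2)| ≤ 1 := by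
  have hs0 : 0 < s := by linarith
  have e : √s ^ 2 = s := Real.sq_sqrt hs0.le
  have h1 : (√s)⁻¹ ≤ 1 := inv_le_one_of_one_le₀ (by rwa [Real.one_le_sqrt])
  have h2 : s⁻¹ ≤ 1 := inv_le_one_of_one_le₀ hs
  have h1' : 0 ≤ (√s)⁻¹ := by positivity
  have h2' : 0 ≤ s⁻¹ := by positivity
  have h3 : ph (m / √s) * |m ^ 2 / (2 * s) - 1 / 2| ≤ 1 := by
    unfold ph
    have e2 : -(m / √s) ^ 2 / 2 = -(m ^ 2 / (2 * s)) := by
      rw [div_pow, e]; field_simp
    rw [e2]
    have hb := aux_exp_bound (x := m ^ 2 / (2 * s)) (by positivity)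
    have hc := const_le_one
    have hc' : 0 ≤ (√(2 * π))⁻¹ := by positivity
    calc (√(2 * π))⁻¹ * exp (-(m ^ 2 / (2 * s))) * |m ^ 2 / (2 * s) - 1 / 2|
        = (√(2 * π))⁻¹ * (|m ^ 2 / (2 * s) - 1 / 2| * exp (-(m ^ 2 / (2 * s)))) := by ring
      _ ≤ 1 * 1 := mul_le_mul hc hb (by positivity) zero_le_one
      _ = 1 := one_mul 1
  rw [abs_mul, abs_mul, abs_mul, abs_of_nonneg h1', abs_of_nonneg h2', abs_of_pos (ph_pos _)]
  have h4 : 0 ≤ ph (m / √s) * |m ^ 2 / (2 * s) - 1 / 2| :=
    mul_nonneg (ph_pos _).le (abs_nonneg _)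
  calc (√s)⁻¹ * s⁻¹ * ph (m / √s) * |m ^ 2 / (2 * s) - 1 / 2|
      = ((√s)⁻¹ * s⁻¹) * (ph (m / √s) * |m ^ 2 / (2 * s) - 1 / 2|) := by ring
    _ ≤ (1 * 1) * 1 := by
        apply mul_le_mul _ h3 h4 (by norm_num)
        exact mul_le_mul h1 h2 h2' zero_le_one
    _ = 1 := by norm_num

lemma qd_lip (m : ℝ) {s t : ℝ} (hs : 1 ≤ s) (ht : 1 ≤ t) : |qd m s - qd m t| ≤ |s - t| := by
  have h := Convex.norm_image_sub_le_of_norm_hasDerivWithin_le (f := qd m)
    (f' := fun s => (√s)⁻¹ * s⁻¹ * ph (m / √s) * (m ^ 2 / (2 * s) - 1 / 2)) (s := Set.Ici 1)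
    (C := 1) (x := t) (y := s)
    (fun x hx => (qd_hasDerivAt m (by
      simp only [Set.mem_Ici] at hx; linarith)).hasDerivWithinAt)
    (fun x hx => by
      simp only [Set.mem_Ici] at hx
      rw [Real.norm_eq_abs]
      exact qd_deriv_bound m hx) (convex_Ici 1) ht hs
  simpa [Real.norm_eq_abs] using h

/-- first order expansion of the expected absolute value in the variance -/
lemma Th_err (m : ℝ) {s t B : ℝ} (hs : 1 ≤ s) (ht : 1 ≤ t) (hsB : |s - 2| ≤ B)
    (htB : |t - 2| ≤ B) :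
    |Th m s - Th m t - (s - t) * qd m 2| ≤ |s - t| * min 1 B := by
  have hconv : Convex ℝ (Set.Ici (1 : ℝ) ∩ Set.Icc (2 - B) (2 + B)) :=
    (convex_Ici 1).inter (convex_Icc _ _)
  have hmem : ∀ x, 1 ≤ x → |x - 2| ≤ B → x ∈ Set.Ici (1 : ℝ) ∩ Set.Icc (2 - B) (2 + B) := by
    intro x hx hxB
    rw [abs_le] at hxB
    refine ⟨hx, ?_, ?_⟩ <;> linarith
  have h := Convex.norm_image_sub_le_of_norm_hasDerivWithin_le
    (f := fun x => Th m x - x * qd m 2)
    (f' := fun x => qd m x - qd m 2) (s := Set.Ici (1 : ℝ) ∩ Set.Icc (2 - B) (2 + B))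
    (C := min 1 B) (x := t) (y := s)
    (fun x hx => by
      have h0 : (0 : ℝ) < x := by
        have := hx.1
        simp only [Set.mem_Ici] at this; linarith
      have := (Th_hasDerivAt m h0).sub ((hasDerivAt_id x).mul_const (qd m 2))
      refine (this.congr_deriv ?_).hasDerivWithinAt
      simp)
    (fun x hx => by
      have hx1 : 1 ≤ x := hx.1
      have hx2 := hx.2
      rw [Real.norm_eq_abs]
      apply le_min
      · have a1 := qd_le_one m hx1
        have a2 := qd_le_one m (s := 2) (by norm_num)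
        have a3 := qd_nonneg m x
        have a4 := qd_nonneg m 2
        rw [abs_le]; constructor <;> linarith
      · refine (qd_lip m hx1 (by norm_num)).trans ?_
        rw [Set.mem_Icc] at hx2
        rw [abs_le]; constructor <;> linarith [hx2.1, hx2.2])
    hconv (hmem t ht htB) (hmem s hs hsB)
  rw [Real.norm_eq_abs, Real.norm_eq_abs] at h
  calc |Th m s - Th m t - (s - t) * qd m 2|
      = |Th m s - s * qd m 2 - (Th m t - t * qd m 2)| := by congr 1; ring
    _ ≤ min 1 B * |s - t| := h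
    _ = _ := mul_comm _ _

lemma Th_lip (m : ℝ) {s t r : ℝ} (hr : 0 < r) (hs : r ^ 2 ≤ s) (ht : r ^ 2 ≤ t) :
    |Th m s - Th m t| ≤ |s - t| / r := by
  have h := Convex.norm_image_sub_le_of_norm_hasDerivWithin_le
    (f := Th m) (f' := fun x => qd m x) (s := Set.Ici (r ^ 2))
    (C := 1 / r) (x := t) (y := s)
    (fun x hx => by
      have hx' : r ^ 2 ≤ x := hx
      have h0 : (0 : ℝ) < x := lt_of_lt_of_le (by positivity) hx'
      exact (Th_hasDerivAt m h0).hasDerivWithinAt)
    (fun x hx => by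
      have hx' : r ^ 2 ≤ x := hx
      rw [Real.norm_eq_abs, abs_of_nonneg (qd_nonneg _ _)]
      refine (qd_le m x).trans ?_
      rw [one_div]
      apply inv_anti₀ hr
      exact Real.le_sqrt_of_sq_le hx')
    (convex_Ici _) ht hs
  rw [Real.norm_eq_abs, Real.norm_eq_abs] at h
  calc |Th m s - Th m t| ≤ 1 / r * |s - t| := h
    _ = _ := by ring

end Pool.Agent.Helper61.Zono
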